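import Mathlib

/-!
Blueprint: Sz(q) has the 3-universal transversal property for every q = 2^(2m+1) >= 8
(problem MP_c2cbdb_al).  Every task is a `Prop` below.  F is a field of characteristic 2,
`σ (σ x) = x^2`.  In all algebra use `linear_combination (...) * h.two`, or get
`haveI : CharP F 2 := CharTwo.of_one_ne_zero_of_two_eq_zero one_ne_zero h.two` and `CharTwo.*`.
-/

namespace Pool.Agent.Q42.SZ

open Finset

/-- The points of the Suzuki-Tits ovoid: `none` is the point at infinity, `some (x, y)` is the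
point with affine coordinates `(x, y, nn σ (x, y))`. -/
abbrev Om (F : Type) := Option (F × F)

/-- third coordinate of the ovoid point -/
def nn {F : Type} [Field F] (σ : F →+* F) (p : F × F) : F :=
  p.1 * p.2 + σ p.1 * p.1 ^ 2 + σ p.2

/-- the maps `(x, y) ↦ (x + a, y + b + σ(a) x)` -/
def trF {F : Type} [Field F] (σ : F →+* F) (a b : F) : Om F → Om F
  | none => none
  | some p => some (p.1 + a, p.2 + b + σ a * p.1)

/-- the maps `(x, y) ↦ (k x, k σ(k) y)` -/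
def hmF {F : Type} [Field F] (σ : F →+* F) (k : F) : Om F → Om F
  | none => none
  | some p => some (k * p.1, σ k * k * p.2)

open Classical in
/-- the map exchanging `∞` and `(0, 0)`, and `(x, y) ↦ (y / N, x / N)`, `N = nn σ (x, y)` -/
noncomputable def wwF {F : Type} [Field F] (σ : F →+* F) : Om F → Om F
  | none => some (0, 0)
  | some p => if p = (0, 0) then none else some (p.2 / nn σ p, p.1 / nn σ p)

/-- the Suzuki group: the group of permutations generated by all maps `trF`, `hmF` (k ≠ 0)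
and `wwF` -/
noncomputable def Sz {F : Type} [Field F] (σ : F →+* F) : Subgroup (Equiv.Perm (Om F)) :=
  Subgroup.closure {g | (∃ a b, ⇑g = trF σ a b) ∨ (∃ k, k ≠ 0 ∧ ⇑g = hmF σ k) ∨ ⇑g = wwF σ}

/-- `k`-universal transversal property: for every `k`-set `S` and every `k`-partition (given as
a surjection `c` to `Fin k`) some `g` in `G` maps `S` to a section of the partition. -/
def UT {Ω : Type} (k : ℕ) (G : Subgroup (Equiv.Perm Ω)) : Prop :=
  ∀ (S : Finset Ω) (c : Ω → Fin k), S.card = k → Function.Surjective c →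
    ∃ g ∈ G, ∀ i : Fin k, ∃! s, s ∈ S ∧ c (g s) = i

/-- the hypotheses on `F` and `σ` -/
structure Tit (F : Type) [Field F] [Fintype F] (σ : F →+* F) : Prop where
  two : (2 : F) = 0
  sq : ∀ x, σ (σ x) = x ^ 2
  big : 8 ≤ Fintype.card F

/-! ### A. the group -/

/-- Tasks NZ. If x = 0: σ y = 0 so y = 0. If x ≠ 0 put c = y/(σ x * x); then
N = σ x * x^2 * (c + 1 + σ c) (use σ σ x = x^2), and σ c = c + 1 gives c^2 = σ σ c = c, c = 0 or 1,
contradiction. -/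
def TNz : Prop := ∀ (F : Type) [Field F] [Fintype F] (σ : F →+* F), Tit F σ →
  ∀ p : F × F, p ≠ (0, 0) → nn σ p ≠ 0

/-- N(w p) = 1 / N(p). With N = nn σ p, σ N = σ x * σ y + x^2 * (σ x)^2 + y^2:
x y σN + σ(y) y^2 + σ(x) N^2 = σN * N  by char 2. -/
def TNw : Prop := ∀ (F : Type) [Field F] [Fintype F] (σ : F →+* F), Tit F σ →
  ∀ p : F × F, nn σ p ≠ 0 → nn σ (p.2 / nn σ p, p.1 / nn σ p) = (nn σ p)⁻¹

/-- deps TNz, TNw: the generators are bijections belonging to Sz. (inverse of tr a b is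
tr a (b + σ a * a); inverse of hm k is hm k⁻¹; ww is an involution) -/
def TMem : Prop := ∀ (F : Type) [Field F] [Fintype F] (σ : F →+* F), Tit F σ →
  (∀ a b, ∃ g ∈ Sz σ, ⇑g = trF σ a b) ∧ (∀ k, k ≠ 0 → ∃ g ∈ Sz σ, ⇑g = hmF σ k) ∧
    ∃ g ∈ Sz σ, ⇑g = wwF σ

/-- dep TMem: 2-transitivity: any two distinct points can be moved to ∞, 0. -/
def TTwo : Prop := ∀ (F : Type) [Field F] [Fintype F] (σ : F →+* F), Tit F σ →
  ∀ u v : Om F, u ≠ v → ∃ g ∈ Sz σ, g u = none ∧ g v = some (0, 0)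

/-- a nonempty symmetric ternary relation on distinct triples, invariant under Sz -/
structure Tern {F : Type} [Field F] (σ : F →+* F) (R : Om F → Om F → Om F → Prop) : Prop where
  sw12 : ∀ a b c, R a b c → R b a c
  sw23 : ∀ a b c, R a b c → R a c b
  ne12 : ∀ a b c, R a b c → a ≠ b
  inv : ∀ g ∈ Sz σ, ∀ a b c, R a b c → R (g a) (g b) (g c)
  ex : ∃ a b c, R a b c

/-- the connection set of the link at ∞ -/
structure Lk {F : Type} [Field F] (σ : F →+* F) (S : Finset (F × F)) : Prop where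
  zero : (0, 0) ∉ S
  ne : S.Nonempty
  hm : ∀ k : F, k ≠ 0 → ∀ s ∈ S, (k * s.1, σ k * k * s.2) ∈ S
  iv : ∀ s ∈ S, (s.1, s.2 + σ s.1 * s.1) ∈ S
  ww : ∀ s ∈ S, (s.2 / nn σ s, s.1 / nn σ s) ∈ S

/-- deps TMem, TTwo: link at ∞ of R; S = all s with R none (some (0,0)) (some s). Use
tr: R ∞ u v iff R ∞ 0 (tr⁻¹ v). -/
def TLink : Prop := ∀ (F : Type) [Field F] [Fintype F] [DecidableEq F] (σ : F →+* F), Tit F σ →
  ∀ R, Tern σ R → ∃ S : Finset (F × F), Lk σ S ∧ ∀ u v : F × F,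
    (R none (some u) (some v) ↔ (v.1 + u.1, v.2 + u.2 + σ u.1 * (v.1 + u.1)) ∈ S)

/-! ### B. classes of the connection set -/

/-- finite classes: those c with (1, c) ∈ S -/
def cls {F : Type} [Field F] [Fintype F] [DecidableEq F] (S : Finset (F × F)) : Finset F :=
  univ.filter (fun c => ((1 : F), c) ∈ S)

/-- infinite class present? -/
def eps {F : Type} [Field F] [DecidableEq F] (S : Finset (F × F)) : ℕ :=
  if ((0 : F), (1 : F)) ∈ S then 1 else 0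

/-- d ↦ σ d * d is bijective on F (σ k * k = 1 gives σ k = k⁻¹, σσk = k, k^2 = k). -/
def TBij : Prop := ∀ (F : Type) [Field F] [Fintype F] (σ : F →+* F), Tit F σ →
  Function.Bijective (fun d : F => σ d * d)

/-- dep TBij -/
def TCls : Prop := ∀ (F : Type) [Field F] [Fintype F] [DecidableEq F] (σ : F →+* F), Tit F σ →
  ∀ S, Lk σ S → (∀ d b : F, d ≠ 0 → ((d, b) ∈ S ↔ b / (σ d * d) ∈ cls S)) ∧
    (∀ b : F, (0, b) ∈ S ↔ b ≠ 0 ∧ eps S = 1)

/-- dep TCls, TNz: at least 3 classes. The class set C ⊂ F ∪ {∞} is nonempty, closed under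
c ↦ c + 1 (field iv) and under w: c ↦ (1 + σ c + c^2) / (σ c * c), 0 ↔ ∞ (field ww at (1, c);
class of (x,y) is y/(σ x * x)). If ∞ ∈ C (eps = 1): 0, 1 ∈ cls S. If ∞ ∉ C: 0 ∉ cls S, c, c+1 ∈ cls S,
and if cls S = {c, c+1} then w c, w (c+1) ∈ {c, c+1}; every one of the 4 cases (w is injective;
w fixes both: c = 0; w swaps: c^2 + c = 0) is contradictory. -/
def TThree : Prop := ∀ (F : Type) [Field F] [Fintype F] [DecidableEq F] (σ : F →+* F), Tit F σ →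
  ∀ S, Lk σ S → 3 ≤ (cls S).card + eps S

/-- deps TCls (TBij): the degree. -/
def TDeg : Prop := ∀ (F : Type) [Field F] [Fintype F] [DecidableEq F] (σ : F →+* F), Tit F σ →
  ∀ S, Lk σ S → (S.card : ℝ) = ((cls S).card + eps S : ℕ) * ((Fintype.card F : ℝ) - 1)

/-! ### C. characters and Fourier transform -/

/-- a real (±1 valued) primitive additive character -/
structure Chr (F : Type) [Field F] [Fintype F] [DecidableEq F] (ψ : F → ℝ) : Prop where
  add : ∀ x y, ψ (x + y) = ψ x * ψ y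
  sq : ∀ x, ψ x * ψ x = 1
  orth : ∀ y, ∑ t, ψ (t * y) = if y = 0 then (Fintype.card F : ℝ) else 0

/-- existence: real part of `AddChar.FiniteField.primitiveChar_to_Complex F`, whose values are
±1 in characteristic 2; `AddChar.sum_mulShift` -/
def TChr : Prop := ∀ (F : Type) [Field F] [Fintype F] [DecidableEq F], (2 : F) = 0 →
  ∃ ψ : F → ℝ, Chr F ψ

/-- Parseval -/
def TPars : Prop := ∀ (F : Type) [Field F] [Fintype F] [DecidableEq F] (ψ : F → ℝ), Chr F ψ →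
  (2 : F) = 0 → ∀ f : F → ℝ, ∑ t, (∑ y, f y * ψ (t * y)) ^ 2 = (Fintype.card F : ℝ) * ∑ y, f y ^ 2

/-- orthogonality, sum over a set of frequencies -/
def TSet : Prop := ∀ (F : Type) [Field F] [Fintype F] [DecidableEq F] (ψ : F → ℝ), Chr F ψ →
  (2 : F) = 0 →
  ∀ C : Finset F, ∑ t, (∑ c ∈ C, ψ (t * c)) ^ 2 = (Fintype.card F : ℝ) * C.card

/-- h_t(d) -/
def hh {F : Type} [Field F] [Fintype F] [DecidableEq F] (ψ : F → ℝ) (S : Finset (F × F))
    (t d : F) : ℝ := ∑ b : F, if (d, b) ∈ S then ψ (t * b) else 0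

/-- the kernel K_t(x, x') -/
def kk {F : Type} [Field F] [Fintype F] [DecidableEq F] (σ : F →+* F) (ψ : F → ℝ)
    (S : Finset (F × F)) (t x x' : F) : ℝ :=
  ∑ b : F, if (x' + x, b) ∈ S then ψ (t * (b + σ x * (x' + x))) else 0

/-- the adjacency operator -/
def aa {F : Type} [Field F] [Fintype F] [DecidableEq F] (σ : F →+* F)
    (S : Finset (F × F)) (f : F × F → ℝ) (u : F × F) : ℝ :=
  ∑ v : F × F, if (v.1 + u.1, v.2 + u.2 + σ u.1 * (v.1 + u.1)) ∈ S then f v else 0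

/-- partial Fourier transform in the second variable -/
def ft {F : Type} [Field F] [Fintype F] (ψ : F → ℝ) (f : F × F → ℝ) (t x : F) : ℝ :=
  ∑ y : F, f (x, y) * ψ (t * y)

/-- dep TPars -/
def TPars2 : Prop := ∀ (F : Type) [Field F] [Fintype F] [DecidableEq F] (ψ : F → ℝ), Chr F ψ →
  (2 : F) = 0 → ∀ f : F × F → ℝ, ∑ t, ∑ x, (ft ψ f t x) ^ 2 = (Fintype.card F : ℝ) * ∑ u, f u ^ 2

/-- the Fourier transform turns aa into the kernels kk (substitute b = y' + y + σ x (x' + x)) -/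
def TConv : Prop := ∀ (F : Type) [Field F] [Fintype F] [DecidableEq F] (σ : F →+* F), Tit F σ →
  ∀ (ψ : F → ℝ), Chr F ψ → ∀ (S : Finset (F × F)) (f : F × F → ℝ) (t x : F),
    ft ψ (aa σ S f) t x = ∑ x', kk σ ψ S t x x' * ft ψ f t x'

/-- kk in terms of hh -/
def TKh : Prop := ∀ (F : Type) [Field F] [Fintype F] [DecidableEq F] (σ : F →+* F)
  (ψ : F → ℝ), Chr F ψ → ∀ (S : Finset (F × F)) (t x x' : F),
    kk σ ψ S t x x' = hh ψ S t (x' + x) * ψ (t * (σ x * (x' + x)))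

/-- dep TKh: symmetry. With d = x' + x, kk t x' x = hh t d * ψ(t σ(x) d) * ψ(t σ(d) d) and
hh t d * ψ (t σ(d) d) = hh t d by the field iv (substitute b ↦ b + σ d * d). -/
def TSym : Prop := ∀ (F : Type) [Field F] [Fintype F] [DecidableEq F] (σ : F →+* F), Tit F σ →
  ∀ (ψ : F → ℝ), Chr F ψ → ∀ S, Lk σ S → ∀ t x x' : F,
    kk σ ψ S t x x' = kk σ ψ S t x' x

/-- deps TCls, TBij, TSet: for t ≠ 0, with k' = card (cls S):
sum over d of hh^2 = q k' - k'^2 + eps. (d = 0: hh t 0 = -eps; d ≠ 0: hh t d = sum over c ∈ cls S of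
ψ (t (σ d d) c), and t σ(d) d runs over all nonzero elements.) -/
def THS : Prop := ∀ (F : Type) [Field F] [Fintype F] [DecidableEq F] (σ : F →+* F), Tit F σ →
  ∀ (ψ : F → ℝ), Chr F ψ → ∀ S, Lk σ S → ∀ t : F, t ≠ 0 →
    ∑ d, (hh ψ S t d) ^ 2 =
      (Fintype.card F : ℝ) * (cls S).card - ((cls S).card : ℝ) ^ 2 + eps S

/-- deps THS, TKh: Hilbert-Schmidt norm -/
def THS2 : Prop := ∀ (F : Type) [Field F] [Fintype F] [DecidableEq F] (σ : F →+* F), Tit F σ →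
  ∀ (ψ : F → ℝ), Chr F ψ → ∀ S, Lk σ S → ∀ t : F, t ≠ 0 →
    ∑ x, ∑ x', (kk σ ψ S t x x') ^ 2 = (Fintype.card F : ℝ) *
      ((Fintype.card F : ℝ) * (cls S).card - ((cls S).card : ℝ) ^ 2 + eps S)

/-- dep TKh: the kernel commutes with g ↦ ψ(t σ(a) x) g(x + a) -/
def TCom : Prop := ∀ (F : Type) [Field F] [Fintype F] [DecidableEq F] (σ : F →+* F), Tit F σ →
  ∀ (ψ : F → ℝ), Chr F ψ → ∀ (S : Finset (F × F)) (t a x : F) (g : F → ℝ),
    ψ (t * (σ a * x)) * (∑ x', kk σ ψ S t (x + a) x' * g x') =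
      ∑ x', kk σ ψ S t x x' * (ψ (t * (σ a * x')) * g (x' + a))

/-- for t ≠ 0 there are a, c with ψ(t (σ c a + σ a c)) = -1. Choose z with ψ z = -1 (else orth
fails at y = 1), c0 ∉ {0,1}, σ c0 + c0 ≠ 0, a with t (σ a a) (σ c0 + c0) = z (TBij), c = a c0. -/
def TOmg : Prop := ∀ (F : Type) [Field F] [Fintype F] [DecidableEq F] (σ : F →+* F), Tit F σ →
  ∀ (ψ : F → ℝ), Chr F ψ → ∀ t : F, t ≠ 0 → ∃ a c : F, ψ (t * (σ c * a + σ a * c)) = -1

/-! ### D. abstract spectral lemma -/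

/-- Bessel for each row -/
def TSpA : Prop := ∀ (ι : Type) [Fintype ι] (K : ι → ι → ℝ) (u v : ι → ℝ),
  ∑ x, u x ^ 2 = 1 → ∑ x, v x ^ 2 = 1 → ∑ x, u x * v x = 0 →
    ∑ x, (∑ y, K x y * u y) ^ 2 + ∑ x, (∑ y, K x y * v y) ^ 2 ≤ ∑ x, ∑ y, K x y ^ 2

/-- two independent eigenvectors can be replaced by two orthonormal ones -/
def TSpB : Prop := ∀ (ι : Type) [Fintype ι] (K : ι → ι → ℝ) (u v : ι → ℝ) (l : ℝ),
  (∀ x, ∑ y, K x y * u y = l * u x) → (∀ x, ∑ y, K x y * v y = l * v x) →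
  u ≠ 0 → (∀ r : ℝ, v ≠ r • u) → ∃ u' v' : ι → ℝ,
    ∑ x, u' x ^ 2 = 1 ∧ ∑ x, v' x ^ 2 = 1 ∧ ∑ x, u' x * v' x = 0 ∧
    (∀ x, ∑ y, K x y * u' y = l * u' x) ∧ (∀ x, ∑ y, K x y * v' y = l * v' x)

/-- spectral theorem: a bound for all eigenvalues is a bound for the operator norm -/
def TSpC : Prop := ∀ (ι : Type) [Fintype ι] [DecidableEq ι] (K : ι → ι → ℝ) (M : ℝ),
  (∀ x y, K x y = K y x) →
  (∀ (l : ℝ) (v : ι → ℝ), v ≠ 0 → (∀ x, ∑ y, K x y * v y = l * v x) → 2 * l ^ 2 ≤ M) →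
  ∀ g : ι → ℝ, 2 * ∑ x, (∑ y, K x y * g y) ^ 2 ≤ M * ∑ x, g x ^ 2

/-- deps TSpA, TSpB, TSpC: if K commutes with two injective anticommuting linear maps then
every eigenvalue is at least double. (v eigenvector: if D1 v = r v and D2 v = s v then
D1 D2 v = D2 D1 v, so D1 (D2 v) = 0; so one of D1 v, D2 v is not a multiple of v.) -/
def TSpec : Prop := ∀ (ι : Type) [Fintype ι] [DecidableEq ι] (K : ι → ι → ℝ)
  (D1 D2 : (ι → ℝ) →ₗ[ℝ] (ι → ℝ)),
  (∀ x y, K x y = K y x) →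
  (∀ g x, D1 (fun x => ∑ y, K x y * g y) x = ∑ y, K x y * D1 g y) →
  (∀ g x, D2 (fun x => ∑ y, K x y * g y) x = ∑ y, K x y * D2 g y) →
  Function.Injective D1 → Function.Injective D2 → (∀ g, D1 (D2 g) = - D2 (D1 g)) →
  ∀ g : ι → ℝ, 2 * ∑ x, (∑ y, K x y * g y) ^ 2 ≤ (∑ x, ∑ y, K x y ^ 2) * ∑ x, g x ^ 2

/-! ### E. norm bound and mixing -/

/-- numbers -/
def TArith : Prop := ∀ q k e : ℕ, 8 ≤ q → k ≤ q → e ≤ 1 → 3 ≤ k + e →
  2 * ((q : ℝ) * ((q : ℝ) * k - (k : ℝ) ^ 2 + e)) ≤ (((k + e : ℕ) : ℝ) * ((q : ℝ) - 1)) ^ 2 ∧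
  4 * ((e : ℝ) * ((q : ℝ) - 1) - k) ^ 2 ≤ (((k + e : ℕ) : ℝ) * ((q : ℝ) - 1)) ^ 2

/-- deps TSym, TCom, TOmg, THS2, TSpec, TArith, TThree: D1 g x = ψ(t σ(a) x) g(x + a), D2 with c -/
def TNon : Prop := ∀ (F : Type) [Field F] [Fintype F] [DecidableEq F] (σ : F →+* F), Tit F σ →
  ∀ (ψ : F → ℝ), Chr F ψ → ∀ S, Lk σ S → ∀ t : F, t ≠ 0 → ∀ g : F → ℝ,
    4 * ∑ x, (∑ x', kk σ ψ S t x x' * g x') ^ 2 ≤
      ((((cls S).card + eps S : ℕ) : ℝ) * ((Fintype.card F : ℝ) - 1)) ^ 2 * ∑ x, g x ^ 2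

/-- deps TCls, TArith, TThree: kk 0 x x' = card (cls S) for x ≠ x' and eps S * (q - 1) for
x = x' -/
def TTriv : Prop := ∀ (F : Type) [Field F] [Fintype F] [DecidableEq F] (σ : F →+* F), Tit F σ →
  ∀ (ψ : F → ℝ), Chr F ψ → ∀ S, Lk σ S → ∀ g : F → ℝ, ∑ x, g x = 0 →
    4 * ∑ x, (∑ x', kk σ ψ S 0 x x' * g x') ^ 2 ≤
      ((((cls S).card + eps S : ℕ) : ℝ) * ((Fintype.card F : ℝ) - 1)) ^ 2 * ∑ x, g x ^ 2

/-- deps TNon, TTriv, TConv, TPars2, TChr -/
def TNorm : Prop := ∀ (F : Type) [Field F] [Fintype F] [DecidableEq F] (σ : F →+* F), Tit F σ →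
  ∀ S, Lk σ S → ∀ f : F × F → ℝ, ∑ u, f u = 0 →
    4 * ∑ u, (aa σ S f u) ^ 2 ≤
      ((((cls S).card + eps S : ℕ) : ℝ) * ((Fintype.card F : ℝ) - 1)) ^ 2 * ∑ u, f u ^ 2

/-- the operator aa is regular: aa 1 = card S, and sum of aa f = card S * sum of f (for fixed v
the map u ↦ (v.1 + u.1, v.2 + u.2 + σ u.1 * (v.1 + u.1)) is a bijection, and also for fixed u) -/
def TReg : Prop := ∀ (F : Type) [Field F] [Fintype F] [DecidableEq F] (σ : F →+* F), Tit F σ →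
  ∀ S : Finset (F × F), (∀ (r : ℝ) u, aa σ S (fun _ => r) u = S.card * r) ∧
    ∀ f : F × F → ℝ, ∑ u, aa σ S f u = S.card * ∑ u, f u

/-- deps TReg, TNorm, TDeg, TThree: expander mixing. For f = 1_Y - |Y|/q^2 and u ∈ X:
aa f u = - card S * |Y|/q^2; sum of aa f = 0; Cauchy-Schwarz with 1_X - |X|/q^2. aa 1 = card S; f = 1_Y - |Y|/q^2. -/
def TMix : Prop := ∀ (F : Type) [Field F] [Fintype F] [DecidableEq F] (σ : F →+* F), Tit F σ →
  ∀ S, Lk σ S → ∀ X Y : Finset (F × F),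
    (∀ u ∈ X, ∀ v ∈ Y, (v.1 + u.1, v.2 + u.2 + σ u.1 * (v.1 + u.1)) ∉ S) →
    4 * X.card * Y.card ≤ (Fintype.card F ^ 2 - X.card) * (Fintype.card F ^ 2 - Y.card)

/-- deps TMix, TLink, TTwo: a symmetric invariant relation hits every 3-partition. (take a
point of the smallest part to ∞; X, Y the images of the other two parts.) -/
def TPart : Prop := ∀ (F : Type) [Field F] [Fintype F] [DecidableEq F] (σ : F →+* F), Tit F σ →
  ∀ R, Tern σ R → ∀ c : Om F → Fin 3, Function.Surjective c →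
    ∃ a b d, R a b d ∧ c a ≠ c b ∧ c a ≠ c d ∧ c b ≠ c d

/-- dep TPart: R a b d := ∃ g ∈ Sz σ, S.map g = {a, b, d} and a, b, d distinct -/
def TUt : Prop := ∀ (F : Type) [Field F] [Fintype F] [DecidableEq F] (σ : F →+* F), Tit F σ →
  UT 3 (Sz σ)

/-- dep TUt: final statement; σ = iterateFrobenius, σ (σ x) = x^(2^(2m+2)) = (x^q)^2 = x^2 -/
def TFin : Prop := ∀ (m : ℕ), 1 ≤ m → ∀ (F : Type) [Field F] [Fintype F] [CharP F 2],
  Fintype.card F = 2 ^ (2 * m + 1) → UT 3 (Sz (iterateFrobenius F 2 (m + 1)))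

end Pool.Agent.Q42.SZ
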