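import Mathlib
import Pool.Agent.Q42.SZ.Stmts

namespace Pool.Agent.Q42.SZ

private theorem arith_aux (q k e : ℝ) (hq : 8 ≤ q) (hk0 : 0 ≤ k) (hke : e ≤ k ^ 2)
    (h3 : 3 * k ≤ (k + e) ^ 2) :
    2 * (q * (q * k - k ^ 2 + e)) ≤ ((k + e) * (q - 1)) ^ 2 := by
  have h1 : 3 * k * (q - 1) ^ 2 ≤ (k + e) ^ 2 * (q - 1) ^ 2 :=
    mul_le_mul_of_nonneg_right h3 (sq_nonneg _)
  have h2 : 2 * q ^ 2 * k ≤ 3 * k * (q - 1) ^ 2 := by
    have : 2 * q ^ 2 ≤ 3 * (q - 1) ^ 2 := by nlinarith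
    have := mul_le_mul_of_nonneg_right this hk0
    linarith
  have h4 : 0 ≤ q * (k ^ 2 - e) := mul_nonneg (by linarith) (by linarith)
  have h5 : ((k + e) * (q - 1)) ^ 2 = (k + e) ^ 2 * (q - 1) ^ 2 := by ring
  rw [h5]
  nlinarith

theorem tArith : TArith := by
  intro q k e hq hk he h3
  have hqR : (8 : ℝ) ≤ q := by exact_mod_cast hq
  have hkR : (k : ℝ) ≤ q := by exact_mod_cast hk
  have hk0 : (0 : ℝ) ≤ k := Nat.cast_nonneg _
  have he01 : e = 0 ∨ e = 1 := by omega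
  push_cast
  rcases he01 with rfl | rfl
  · have hk3 : (3 : ℝ) ≤ k := by exact_mod_cast (by omega : 3 ≤ k)
    constructor
    · have := arith_aux q k 0 hqR hk0 (by positivity) (by nlinarith)
      simpa using this
    · have h1 : (0 : ℝ) ≤ k * ((q - 1) - 2) := mul_nonneg hk0 (by linarith)
      have h2 : (0 : ℝ) ≤ k * ((q - 1) + 2) := mul_nonneg hk0 (by linarith)
      simp only [Nat.cast_zero, zero_mul, zero_sub, add_zero]
      nlinarith [mul_nonneg h1 h2]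
  · have hk2 : (2 : ℝ) ≤ k := by exact_mod_cast (by omega : 2 ≤ k)
    constructor
    · have := arith_aux q k 1 hqR hk0 (by nlinarith) (by nlinarith)
      simpa using this
    · simp only [Nat.cast_one, one_mul]
      have h1 : 2 * ((q : ℝ) - 1 - k) ≤ (k + 1) * (q - 1) := by nlinarith
      have h2 : -((k + 1) * ((q : ℝ) - 1)) ≤ 2 * ((q : ℝ) - 1 - k) := by nlinarith
      have h3 : (2 * ((q : ℝ) - 1 - k)) ^ 2 ≤ ((k + 1) * (q - 1)) ^ 2 := sq_le_sq' h2 h1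
      nlinarith

end Pool.Agent.Q42.SZ
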