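import Pool.Agent.Q42.SZ.Stmts
set_option autoImplicit false

namespace Pool.Agent.Q42.SZ

theorem tBij : TBij := by
  intro F _ _ σ h
  rw [← Finite.injective_iff_bijective]
  intro d e hde
  simp only at hde
  by_cases he : e = 0
  · subst he
    rw [mul_zero] at hde
    rcases mul_eq_zero.1 hde with h1 | h1
    · exact (map_eq_zero σ).1 h1
    · exact h1
  have hd : d ≠ 0 := by
    rintro rfl
    rw [mul_zero] at hde
    rcases mul_eq_zero.1 hde.symm with h1 | h1
    · exact he ((map_eq_zero σ).1 h1)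
    · exact he h1
  have hse : σ e ≠ 0 := (map_ne_zero σ).2 he
  have hk : σ (d / e) * (d / e) = 1 := by
    rw [map_div₀, div_mul_div_comm, hde, div_self (mul_ne_zero hse he)]
  have hk0 : d / e ≠ 0 := div_ne_zero hd he
  have hs : σ (d / e) = (d / e)⁻¹ := eq_inv_of_mul_eq_one_left hk
  have h2 : σ (σ (d / e)) = d / e := by rw [hs, map_inv₀, hs, inv_inv]
  rw [h.sq] at h2
  have h3 : d / e = 1 := by
    apply mul_left_cancel₀ hk0
    rw [mul_one, ← sq, h2]
  exact (div_eq_one_iff_eq he).1 h3

end Pool.Agent.Q42.SZ
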