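import Pool.Agent.Q42.SZ.Stmts

/-!
# Task SZ.Chr
-/

set_option autoImplicit false

namespace Pool.Agent.Q42.SZ

open Finset

theorem tChr : TChr := by
  intro F _ _ _ h2
  set χ : AddChar F ℂ := AddChar.FiniteField.primitiveChar_to_Complex F with hχ
  have hprim : χ.IsPrimitive := AddChar.FiniteField.primitiveChar_to_Complex_isPrimitive F
  have hxx : ∀ x : F, x + x = 0 := fun x => by
    have : x + x = 2 * x := by ring
    rw [this, h2, zero_mul]
  have hsq : ∀ x : F, χ x * χ x = 1 := fun x => by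
    rw [← AddChar.map_add_eq_mul, hxx x, AddChar.map_zero_eq_one]
  have hpm : ∀ x : F, χ x = 1 ∨ χ x = -1 := fun x => mul_self_eq_one_iff.mp (hsq x)
  have hre : ∀ x : F, (((χ x).re : ℝ) : ℂ) = χ x := fun x => by
    rcases hpm x with h | h <;> rw [h] <;> simp
  refine ⟨fun x => (χ x).re, ?_, ?_, ?_⟩
  · intro x y
    have : ((((χ (x + y)).re : ℝ)) : ℂ) = (((χ x).re * (χ y).re : ℝ) : ℂ) := by
      push_cast
      rw [hre, hre, hre, AddChar.map_add_eq_mul]
    exact_mod_cast this
  · intro x
    have : ((((χ x).re * (χ x).re : ℝ)) : ℂ) = ((1 : ℝ) : ℂ) := by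
      push_cast
      rw [hre, hsq]
    exact_mod_cast this
  · intro y
    have h := AddChar.sum_mulShift y hprim
    have : (((∑ t, (χ (t * y)).re : ℝ)) : ℂ) = (((if y = 0 then (Fintype.card F : ℝ) else 0 : ℝ)) : ℂ) := by
      push_cast
      simp only [hre]
      rw [h]
      split_ifs <;> simp
    exact_mod_cast this

end Pool.Agent.Q42.SZ
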