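import Pool.Agent.Q42.SZ.Stmts

set_option autoImplicit false

namespace Pool.Agent.Q42.SZ

open Finset

theorem tCls (hB : TBij) : TCls := by
  intro F _ _ _ σ hT S hS
  have hσ : ∀ d : F, d ≠ 0 → σ d ≠ 0 := fun d hd => (map_ne_zero σ).2 hd
  have hk : ∀ b : F, b ≠ 0 → ∃ k : F, k ≠ 0 ∧ σ k * k = b := by
    intro b hb
    obtain ⟨k, hk⟩ := (hB F σ hT).2 b
    refine ⟨k, ?_, hk⟩
    rintro rfl
    apply hb
    rw [← hk]
    simp
  refine ⟨fun d b hd => ⟨fun h => ?_, fun h => ?_⟩, fun b => ⟨fun h => ?_, fun h => ?_⟩⟩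
  · have h1 := hS.hm d⁻¹ (inv_ne_zero hd) _ h
    unfold cls
    rw [Finset.mem_filter]
    refine ⟨Finset.mem_univ _, ?_⟩
    have e1 : d⁻¹ * d = 1 := inv_mul_cancel₀ hd
    have e2 : σ d⁻¹ * d⁻¹ * b = b / (σ d * d) := by
      rw [map_inv₀]
      field_simp
    simp only [e1, e2] at h1
    exact h1
  · unfold cls at h
    rw [Finset.mem_filter] at h
    have h1 := hS.hm d hd _ h.2
    have e1 : σ d * d * (b / (σ d * d)) = b := by
      have := hσ d hd
      field_simp
    simp only [mul_one, e1] at h1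
    exact h1
  · have hb : b ≠ 0 := by
      rintro rfl
      exact hS.zero h
    refine ⟨hb, ?_⟩
    obtain ⟨k, hk0, hk1⟩ := hk b⁻¹ (inv_ne_zero hb)
    have h1 := hS.hm k hk0 _ h
    simp only [mul_zero, hk1, inv_mul_cancel₀ hb] at h1
    unfold eps
    rw [if_pos h1]
  · obtain ⟨hb, he⟩ := h
    have h0 : ((0 : F), (1 : F)) ∈ S := by
      unfold eps at he
      by_contra hn
      rw [if_neg hn] at he
      exact absurd he (by norm_num)
    obtain ⟨k, hk0, hk1⟩ := hk b hb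
    have h1 := hS.hm k hk0 _ h0
    simp only [mul_zero, mul_one, hk1] at h1
    exact h1

end Pool.Agent.Q42.SZ
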