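import Pool.Agent.Q42.SZ.Stmts

/-! Blueprint SZ, task Com: the kernel commutes with `g ↦ ψ(t σ(a) x) g(x + a)`. -/

namespace Pool.Agent.Q42.SZ

theorem tCom (hK : TKh) : TCom := by
  intro F _ _ _ σ hT ψ hψ S t a x g
  have h2 := hT.two
  rw [← Equiv.sum_comp (Equiv.addRight a) (fun x' => kk σ ψ S t (x + a) x' * g x'),
    Finset.mul_sum]
  refine Finset.sum_congr rfl fun y _ => ?_
  simp only [Equiv.coe_addRight]
  rw [hK F σ ψ hψ, hK F σ ψ hψ]
  have e1 : y + a + (x + a) = y + x := by linear_combination a * h2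
  rw [e1, map_add]
  have e2 : ψ (t * (σ a * x)) * ψ (t * ((σ x + σ a) * (y + x))) =
      ψ (t * (σ x * (y + x))) * ψ (t * (σ a * y)) := by
    rw [← hψ.add, ← hψ.add]
    congr 1
    linear_combination (t * σ a * x) * h2
  calc ψ (t * (σ a * x)) * (hh ψ S t (y + x) * ψ (t * ((σ x + σ a) * (y + x))) * g (y + a))
      = hh ψ S t (y + x) * (ψ (t * (σ a * x)) * ψ (t * ((σ x + σ a) * (y + x)))) * g (y + a) := by
        ring
    _ = _ := by rw [e2]; ring

end Pool.Agent.Q42.SZ
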