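import Pool.Agent.Q42.SZ.Stmts

/-!
# The Fourier transform of the adjacency operator (helper57)
-/

namespace Pool.Agent.Q42.SZ

open Finset

theorem tConv : TConv := by
  intro F _ _ _ σ h ψ hψ S f t x
  unfold ft aa kk
  simp_rw [Fintype.sum_prod_type, Finset.sum_mul]
  rw [Finset.sum_comm]
  refine Finset.sum_congr rfl fun x' _ => ?_
  rw [Finset.sum_comm]
  simp_rw [Finset.mul_sum]
  rw [Finset.sum_comm (s := univ) (t := univ)
    (f := fun b y' => (if (x' + x, b) ∈ S then ψ (t * (b + σ x * (x' + x))) else 0) *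
      (f (x', y') * ψ (t * y')))]
  refine Finset.sum_congr rfl fun y' _ => ?_
  refine Fintype.sum_equiv (Equiv.addRight (y' + σ x * (x' + x))) _ _ fun y => ?_
  have e1 : Equiv.addRight (y' + σ x * (x' + x)) y = y' + y + σ x * (x' + x) := by
    change y + (y' + σ x * (x' + x)) = _
    ring
  have e2 : y' + y + σ x * (x' + x) + σ x * (x' + x) = y' + y := by
    linear_combination (σ x * (x' + x)) * h.two
  by_cases hS : (x' + x, y' + y + σ x * (x' + x)) ∈ S
  · have hS' : (x' + x, Equiv.addRight (y' + σ x * (x' + x)) y) ∈ S := by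
      rw [e1]
      exact hS
    rw [if_pos hS, if_pos hS', e1, e2, mul_add, hψ.add]
    have h3 := hψ.sq (t * y')
    linear_combination (-(f (x', y') * ψ (t * y))) * h3
  · have hS' : (x' + x, Equiv.addRight (y' + σ x * (x' + x)) y) ∉ S := by
      rw [e1]
      exact hS
    rw [if_neg hS, if_neg hS', zero_mul, zero_mul]

end Pool.Agent.Q42.SZ
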