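import Pool.Agent.Q42.SZ.Stmts

set_option autoImplicit false

namespace Pool.Agent.Q42.SZ

open Finset

private lemma eps_cases {F : Type} [Field F] [DecidableEq F] (S : Finset (F × F)) :
    eps S = 0 ∨ eps S = 1 := by
  unfold eps; split_ifs <;> simp

theorem tDeg (hCls : TCls) : TDeg := by
  intro F _ _ _ σ hT S hS
  obtain ⟨h1, h2⟩ := hCls F σ hT S hS
  have hfib : S.card = ∑ d : F, (S.filter (fun p => p.1 = d)).card :=
    Finset.card_eq_sum_card_fiberwise (fun p _ => by simp)
  have hne : ∀ d : F, d ≠ 0 → (S.filter (fun p => p.1 = d)).card = (cls S).card := by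
    intro d hd
    have hd' : σ d * d ≠ 0 := mul_ne_zero ((map_ne_zero σ).2 hd) hd
    refine Finset.card_nbij' (fun p => p.2 / (σ d * d)) (fun c => (d, c * (σ d * d))) ?_ ?_ ?_ ?_
    · rintro ⟨a, b⟩ hp
      simp only [coe_filter, Set.mem_setOf_eq] at hp
      obtain ⟨hp1, rfl⟩ := hp
      exact (h1 a b hd).1 hp1
    · intro c hc
      have : c * (σ d * d) / (σ d * d) ∈ cls S := by rwa [mul_div_cancel_right₀ _ hd']
      have h3 := (h1 d (c * (σ d * d)) hd).2 this
      simp only [coe_filter, Set.mem_setOf_eq]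
      exact ⟨h3, trivial⟩
    · rintro ⟨a, b⟩ hp
      simp only [coe_filter, Set.mem_setOf_eq] at hp
      obtain ⟨hp1, rfl⟩ := hp
      simp only [Prod.mk.injEq, true_and]
      exact div_mul_cancel₀ _ hd'
    · intro c hc
      simp only
      exact mul_div_cancel_right₀ _ hd'
  have h0 : (S.filter (fun p => p.1 = 0)).card = eps S * (Fintype.card F - 1) := by
    rcases eps_cases S with he | he
    · rw [he, zero_mul, Finset.card_eq_zero, Finset.filter_eq_empty_iff]
      rintro ⟨a, b⟩ hp rfl
      have := ((h2 b).1 hp).2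
      omega
    · rw [he, one_mul]
      have : (univ.erase (0 : F)).card = Fintype.card F - 1 := by
        rw [card_erase_of_mem (mem_univ _), card_univ]
      rw [← this]
      refine Finset.card_nbij' (fun p => p.2) (fun b => ((0 : F), b)) ?_ ?_ ?_ ?_
      · rintro ⟨a, b⟩ hp
        simp only [coe_filter, Set.mem_setOf_eq] at hp
        obtain ⟨hp1, rfl⟩ := hp
        have := ((h2 b).1 hp1).1
        simp [this]
      · intro b hb
        have hb0 : b ≠ 0 := by simpa using hb
        simp only [coe_filter, Set.mem_setOf_eq]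
        exact ⟨(h2 b).2 ⟨hb0, he⟩, trivial⟩
      · rintro ⟨a, b⟩ hp
        simp only [coe_filter, Set.mem_setOf_eq] at hp
        obtain ⟨hp1, rfl⟩ := hp
        rfl
      · intro b hb
        rfl
  have hsum : S.card = eps S * (Fintype.card F - 1) + (Fintype.card F - 1) * (cls S).card := by
    rw [hfib, ← Finset.add_sum_erase univ _ (mem_univ (0 : F)), h0]
    congr 1
    rw [Finset.sum_congr rfl (fun d hd => hne d (Finset.ne_of_mem_erase hd)), sum_const,
      card_erase_of_mem (mem_univ _), card_univ, smul_eq_mul]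
  have hq : 1 ≤ Fintype.card F := Fintype.card_pos
  rw [hsum]
  push_cast [hq]
  ring

end Pool.Agent.Q42.SZ
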