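import Pool.Agent.Q42.SZ.Stmts

namespace Pool.Agent.Q42.SZ

open Finset

theorem tFin (hU : TUt) : TFin := by
  intro m hm F _ _ _ hcard
  classical
  apply hU
  refine ⟨?_, ?_, ?_⟩
  · exact_mod_cast CharP.cast_eq_zero F 2
  · intro x
    rw [iterateFrobenius_def, iterateFrobenius_def, ← pow_mul]
    have h1 : 2 ^ (m + 1) * 2 ^ (m + 1) = Fintype.card F * 2 := by
      rw [hcard, ← pow_add, ← pow_succ]
      congr 1
      ring
    rw [h1, pow_mul, FiniteField.pow_card]
  · rw [hcard]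
    calc 8 = 2 ^ 3 := by norm_num
      _ ≤ 2 ^ (2 * m + 1) := Nat.pow_le_pow_right (by norm_num) (by omega)

end Pool.Agent.Q42.SZ
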