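import Pool.Agent.Q42.SZ.Stmts

namespace Pool.Agent.Q42.SZ

open Finset

theorem tHS (hCls : TCls) (hBij : TBij) (hSet : TSet) : THS := by
  intro F _ _ _ σ hT ψ hψ S hS t ht
  have h0 : ψ 0 = 1 := by
    have h1 := hψ.add 0 0
    rw [add_zero] at h1
    have h2 := hψ.sq 0
    linarith
  obtain ⟨hc1, hc2⟩ := hCls F σ hT S hS
  set C : Finset F := cls S with hC
  set G : F → ℝ := fun s => (∑ c ∈ C, ψ (s * c)) ^ 2 with hGdef
  have hG : ∑ s, G s = (Fintype.card F : ℝ) * C.card := hSet F ψ hψ hT.two C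
  have hb : Function.Bijective (fun d : F => t * (σ d * d)) :=
    (Equiv.mulLeft₀ t ht).bijective.comp (hBij F σ hT)
  have hsum : ∑ d, G (t * (σ d * d)) = ∑ s, G s := hb.sum_comp G
  have hd : ∀ d, d ≠ 0 → (hh ψ S t d) ^ 2 = G (t * (σ d * d)) := by
    intro d hd
    have hσ : σ d * d ≠ 0 := mul_ne_zero ((map_ne_zero σ).2 hd) hd
    have h3 : hh ψ S t d = ∑ c ∈ C, ψ (t * (σ d * d) * c) := by
      unfold hh
      rw [← Finset.sum_filter]
      symm
      refine Finset.sum_nbij' (fun c => σ d * d * c) (fun b => b / (σ d * d)) ?_ ?_ ?_ ?_ ?_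
      · intro c hc
        rw [Finset.mem_filter]
        refine ⟨Finset.mem_univ _, ?_⟩
        rw [hc1 d _ hd, mul_div_cancel_left₀ _ hσ]
        exact hc
      · intro b hb
        rw [Finset.mem_filter, hc1 d _ hd] at hb
        exact hb.2
      · intro c _
        exact mul_div_cancel_left₀ _ hσ
      · intro b _
        exact mul_div_cancel₀ _ hσ
      · intro c _
        rw [mul_assoc]
    rw [h3]
  have h00 : (hh ψ S t 0) ^ 2 = (eps S : ℝ) := by
    have he : eps S = 0 ∨ eps S = 1 := by
      unfold eps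
      split <;> simp
    rcases he with he | he
    · have h4 : hh ψ S t 0 = 0 := by
        unfold hh
        refine Finset.sum_eq_zero fun b _ => ?_
        rw [if_neg]
        rw [hc2 b, he]
        simp
      rw [h4, he]
      simp
    · have h4 : hh ψ S t 0 = -1 := by
        have h5 : ∀ b : F, (if ((0 : F), b) ∈ S then ψ (t * b) else 0) =
            ψ (b * t) - if b = 0 then 1 else 0 := by
          intro b
          by_cases hb0 : b = 0
          · subst hb0
            rw [if_neg (by rw [hc2]; simp), if_pos rfl, zero_mul, h0, sub_self]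
          · rw [if_pos (by rw [hc2]; exact ⟨hb0, he⟩), if_neg hb0, sub_zero, mul_comm]
        unfold hh
        rw [Finset.sum_congr rfl fun b _ => h5 b, Finset.sum_sub_distrib, hψ.orth t, if_neg ht]
        simp
      rw [h4, he]
      norm_num
  have hG0 : G 0 = (C.card : ℝ) ^ 2 := by
    simp [hGdef, h0]
  have e1 := Finset.add_sum_erase Finset.univ (fun d => (hh ψ S t d) ^ 2) (Finset.mem_univ (0 : F))
  have e2 := Finset.add_sum_erase Finset.univ (fun d => G (t * (σ d * d))) (Finset.mem_univ (0 : F))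
  have e3 : ∑ d ∈ Finset.univ.erase (0 : F), (hh ψ S t d) ^ 2 =
      ∑ d ∈ Finset.univ.erase (0 : F), G (t * (σ d * d)) :=
    Finset.sum_congr rfl fun d hdm => hd d (Finset.ne_of_mem_erase hdm)
  have e4 : G (t * (σ 0 * 0)) = (C.card : ℝ) ^ 2 := by
    rw [mul_zero, mul_zero, hG0]
  rw [e4, hsum, hG] at e2
  rw [← e1, h00, e3]
  linarith

end Pool.Agent.Q42.SZ
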