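import Pool.Agent.Q42.SZ.Stmts

namespace Pool.Agent.Q42.SZ

open Finset

theorem tHS2 (hH : THS) (hK : TKh) : THS2 := by
  intro F _ _ _ σ hT ψ hψ S hS t ht
  have h : ∀ x : F, ∑ x', (kk σ ψ S t x x') ^ 2 =
      (Fintype.card F : ℝ) * (cls S).card - ((cls S).card : ℝ) ^ 2 + eps S := by
    intro x
    rw [← hH F σ hT ψ hψ S hS t ht]
    rw [← Equiv.sum_comp (Equiv.addRight x) (fun d => (hh ψ S t d) ^ 2)]
    refine Finset.sum_congr rfl fun x' _ => ?_
    rw [hK F σ ψ hψ S t x x', mul_pow]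
    have := hψ.sq (t * (σ x * (x' + x)))
    rw [← sq] at this
    rw [this, mul_one]
    rfl
  rw [Finset.sum_congr rfl (fun x _ => h x), Finset.sum_const, Finset.card_univ, nsmul_eq_mul]

end Pool.Agent.Q42.SZ
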