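import Pool.Agent.Q42.SZ.Stmts

namespace Pool.Agent.Q42.SZ

open Finset

theorem tKh : TKh := by
  intro F _ _ _ σ ψ hψ S t x x'
  unfold kk hh
  rw [Finset.sum_mul]
  refine Finset.sum_congr rfl fun b _ => ?_
  split_ifs with h
  · rw [mul_add, hψ.add]
  · simp

end Pool.Agent.Q42.SZ
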