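import Pool.Agent.Q42.SZ.Stmts

set_option autoImplicit false

namespace Pool.Agent.Q42.SZ

open Finset

theorem tLink (hM : TMem) (hT : TTwo) : TLink := by
  classical
  intro F _ _ _ σ hTit R hR
  obtain ⟨htr, hhm, hww⟩ := hM F σ hTit
  have h2 : (2 : F) = 0 := hTit.two
  have hne23 : ∀ a b c, R a b c → b ≠ c := fun a b c h => hR.ne12 _ _ _ (hR.sw23 _ _ _ (hR.sw12 _ _ _ h))
  have hne13 : ∀ a b c, R a b c → a ≠ c := fun a b c h => hR.ne12 _ _ _ (hR.sw23 _ _ _ h)
  set S : Finset (F × F) := univ.filter (fun s => R none (some (0, 0)) (some s)) with hS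
  have hmem : ∀ s, s ∈ S ↔ R none (some (0, 0)) (some s) := fun s => by simp [hS]
  have hmain : ∀ u v : F × F, (R none (some u) (some v) ↔
      (v.1 + u.1, v.2 + u.2 + σ u.1 * (v.1 + u.1)) ∈ S) := by
    intro u v
    rw [hmem]
    obtain ⟨g, hg, hge⟩ := htr u.1 (u.2 + σ u.1 * u.1)
    have g0 : g none = none := by rw [hge]; rfl
    have gu : g (some u) = some (0, 0) := by
      rw [hge]
      simp only [trF, Option.some.injEq, Prod.mk.injEq]
      constructor
      · linear_combination u.1 * h2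
      · linear_combination (u.2 + σ u.1 * u.1) * h2
    have gv : g (some v) = some (v.1 + u.1, v.2 + u.2 + σ u.1 * (v.1 + u.1)) := by
      rw [hge]
      simp only [trF, Option.some.injEq, Prod.mk.injEq, true_and]
      ring
    constructor
    · intro h
      have := hR.inv g hg _ _ _ h
      rwa [g0, gu, gv] at this
    · intro h
      have h3 := hR.inv g⁻¹ (Subgroup.inv_mem _ hg) _ _ _ h
      rw [← gu, ← gv] at h3
      nth_rewrite 1 [← g0] at h3
      simpa using h3
  refine ⟨S, ⟨?_, ?_, ?_, ?_, ?_⟩, hmain⟩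
  · rw [hmem]
    intro h
    exact hne23 _ _ _ h rfl
  · obtain ⟨a, b, c, habc⟩ := hR.ex
    obtain ⟨g, hg, ga, gb⟩ := hT F σ hTit a b (hR.ne12 _ _ _ habc)
    have h := hR.inv g hg _ _ _ habc
    rw [ga, gb] at h
    have hc := hne13 _ _ _ h
    obtain ⟨s, hs⟩ := Option.ne_none_iff_exists'.1 hc.symm
    rw [hs] at h
    exact ⟨s, (hmem s).2 h⟩
  · intro k hk s hs
    rw [hmem] at hs ⊢
    obtain ⟨g, hg, hge⟩ := hhm k hk
    have h := hR.inv g hg _ _ _ hs
    rw [hge] at h
    simpa [hmF] using h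
  · intro s hs
    rw [hmem] at hs
    have h := hR.sw23 _ _ _ hs
    rw [hmain] at h
    simpa using h
  · intro s hs
    have hs0 : s ≠ (0, 0) := by
      rintro rfl
      rw [hmem] at hs
      exact hne23 _ _ _ hs rfl
    rw [hmem] at hs ⊢
    obtain ⟨g, hg, hge⟩ := hww
    have h := hR.inv g hg _ _ _ hs
    rw [hge] at h
    simp only [wwF, if_true, if_neg hs0] at h
    exact hR.sw12 _ _ _ h

end Pool.Agent.Q42.SZ
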