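import Mathlib
import Pool.Agent.Q42.SZ.Stmts

set_option autoImplicit false

namespace Pool.Agent.Q42.SZ

private theorem add_self_F {F : Type} [Field F] (h2 : (2 : F) = 0) (a : F) : a + a = 0 := by
  rw [← two_mul, h2, zero_mul]

private theorem tr_tr {F : Type} [Field F] (σ : F →+* F) (h2 : (2 : F) = 0) (a b b' : F)
    (hb : b' = b + σ a * a) (p : Om F) : trF σ a b' (trF σ a b p) = p := by
  cases p with
  | none => rfl
  | some p =>
    simp only [trF]
    congr 1
    ext
    · simp only
      linear_combination a * h2
    · simp only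
      rw [hb]
      linear_combination (b + σ a * a + σ a * p.1) * h2

private theorem hm_hm {F : Type} [Field F] (σ : F →+* F) (k : F) (hk : k ≠ 0) (p : Om F) :
    hmF σ k⁻¹ (hmF σ k p) = p := by
  cases p with
  | none => rfl
  | some p =>
    have hs : σ k ≠ 0 := (map_ne_zero σ).2 hk
    simp only [hmF]
    congr 1
    ext
    · simp only
      field_simp
    · simp only [map_inv₀]
      field_simp

theorem tMem (hNz : TNz) (hNw : TNw) : TMem := by
  intro F _ _ σ h
  classical
  refine ⟨fun a b => ?_, fun k hk => ?_, ?_⟩
  · refine ⟨⟨trF σ a b, trF σ a (b + σ a * a), fun p => tr_tr σ h.two a b _ rfl p,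
      fun p => tr_tr σ h.two a (b + σ a * a) b ?_ p⟩, ?_, rfl⟩
    · linear_combination (- (σ a * a)) * h.two
    · exact Subgroup.subset_closure (Or.inl ⟨a, b, rfl⟩)
  · refine ⟨⟨hmF σ k, hmF σ k⁻¹, fun p => hm_hm σ k hk p, fun p => ?_⟩, ?_, rfl⟩
    · have h1 := hm_hm σ k⁻¹ (inv_ne_zero hk) p
      rwa [inv_inv] at h1
    · exact Subgroup.subset_closure (Or.inr (Or.inl ⟨k, hk, rfl⟩))
  · have hww : ∀ p : Om F, wwF σ (wwF σ p) = p := by
      intro p
      cases p with
      | none => simp [wwF]
      | some p =>
        by_cases hp : p = (0, 0)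
        · simp [wwF, hp]
        · have hN : nn σ p ≠ 0 := hNz F σ h p hp
          have hN' := hNw F σ h p hN
          have hp' : ((p.2 / nn σ p, p.1 / nn σ p) : F × F) ≠ (0, 0) := by
            intro hc
            rw [Prod.mk.injEq, div_eq_zero_iff, div_eq_zero_iff] at hc
            refine hp (Prod.ext ?_ ?_)
            · rcases hc.2 with h1 | h1
              · exact h1
              · exact absurd h1 hN
            · rcases hc.1 with h1 | h1
              · exact h1
              · exact absurd h1 hN
          have e1 : wwF σ (some p) = some (p.2 / nn σ p, p.1 / nn σ p) := by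
            simp only [wwF, if_neg hp]
          have e2 : wwF σ (some (p.2 / nn σ p, p.1 / nn σ p)) = some
              (p.1 / nn σ p / nn σ (p.2 / nn σ p, p.1 / nn σ p),
                p.2 / nn σ p / nn σ (p.2 / nn σ p, p.1 / nn σ p)) := by
            simp only [wwF, if_neg hp']
          rw [e1, e2, hN']
          congr 1
          ext
          · simp only
            field_simp
          · simp only
            field_simp
    exact ⟨⟨wwF σ, wwF σ, hww, hww⟩, Subgroup.subset_closure (Or.inr (Or.inr rfl)), rfl⟩

end Pool.Agent.Q42.SZ
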