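import Pool.Agent.Q42.SZ.Stmts

set_option autoImplicit false

namespace Pool.Agent.Q42.SZ

open Finset

theorem mixAux {α : Type} [Fintype α] [DecidableEq α] (Z : Finset α) (N : ℝ) (hN : 0 < N)
    (hc : (Fintype.card α : ℝ) = N) :
    ∑ u, ((if u ∈ Z then (1 : ℝ) else 0) - Z.card / N) = 0 ∧
    ∑ u, ((if u ∈ Z then (1 : ℝ) else 0) - Z.card / N) ^ 2 = Z.card - (Z.card : ℝ) ^ 2 / N := by
  have h1 : ∑ u, (if u ∈ Z then (1 : ℝ) else 0) = Z.card := by simp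
  have h2 : ∀ r : ℝ, ∑ _u : α, r = N * r := by
    intro r
    rw [sum_const, card_univ, nsmul_eq_mul, hc]
  constructor
  · rw [sum_sub_distrib, h1, h2]
    field_simp
    ring
  · have e : ∀ u : α, ((if u ∈ Z then (1 : ℝ) else 0) - Z.card / N) ^ 2 =
        (1 - 2 * (Z.card / N)) * (if u ∈ Z then (1 : ℝ) else 0) + (Z.card / N) ^ 2 := by
      intro u
      split_ifs <;> ring
    rw [sum_congr rfl fun u _ => e u, sum_add_distrib, ← mul_sum, h1, h2]
    field_simp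
    ring

theorem tMix (hReg : TReg) (hNorm : TNorm) (hDeg : TDeg) (hThree : TThree) : TMix := by
  intro F _ _ _ σ hT S hS X Y hXY
  obtain ⟨hr1, hr2⟩ := hReg F σ hT S
  have hdeg := hDeg F σ hT S hS
  have h3 := hThree F σ hT S hS
  have hbig := hT.big
  have hcard : Fintype.card (F × F) = Fintype.card F ^ 2 := by rw [Fintype.card_prod]; ring
  have hXN : X.card ≤ Fintype.card F ^ 2 := by rw [← hcard]; exact card_le_univ X
  have hYN : Y.card ≤ Fintype.card F ^ 2 := by rw [← hcard]; exact card_le_univ Y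
  obtain ⟨q, hq⟩ : ∃ q : ℝ, (Fintype.card F : ℝ) = q := ⟨_, rfl⟩
  have hq8 : (8 : ℝ) ≤ q := by rw [← hq]; exact_mod_cast hbig
  have hN : 0 < q ^ 2 := by positivity
  have hc : (Fintype.card (F × F) : ℝ) = q ^ 2 := by rw [hcard]; push_cast; rw [hq]
  obtain ⟨-, hX2⟩ := mixAux X (q ^ 2) hN hc
  obtain ⟨hY1, hY2⟩ := mixAux Y (q ^ 2) hN hc
  have hnorm := hNorm F σ hT S hS (fun v => (if v ∈ Y then (1 : ℝ) else 0) - Y.card / q ^ 2) hY1
  rw [hY2, ← hdeg] at hnorm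
  have hD : 0 < (S.card : ℝ) := by
    rw [hdeg, hq]
    have : (3 : ℝ) ≤ (((cls S).card + eps S : ℕ) : ℝ) := by exact_mod_cast h3
    have : 0 < (((cls S).card + eps S : ℕ) : ℝ) := by linarith
    exact mul_pos this (by linarith)
  obtain ⟨D, hDe⟩ : ∃ D : ℝ, (S.card : ℝ) = D := ⟨_, rfl⟩
  rw [hDe] at hD hnorm
  have hu : ∀ u ∈ X, aa σ S (fun v => (if v ∈ Y then (1 : ℝ) else 0) - Y.card / q ^ 2) u =
      -(D * (Y.card / q ^ 2)) := by
    intro u hu
    have := hr1 (-(Y.card / q ^ 2)) u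
    rw [hDe] at this
    rw [← mul_neg, ← this]
    unfold aa
    refine sum_congr rfl fun v _ => ?_
    by_cases hv : (v.1 + u.1, v.2 + u.2 + σ u.1 * (v.1 + u.1)) ∈ S
    · have hvY : v ∉ Y := fun h => hXY u hu v h hv
      simp [hv, hvY]
    · simp [hv]
  have hsum := hr2 (fun v => (if v ∈ Y then (1 : ℝ) else 0) - Y.card / q ^ 2)
  rw [hY1, mul_zero] at hsum
  have hcs := Finset.sum_mul_sq_le_sq_mul_sq (univ : Finset (F × F))
    (fun u => (if u ∈ X then (1 : ℝ) else 0) - X.card / q ^ 2)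
    (fun u => aa σ S (fun v => (if v ∈ Y then (1 : ℝ) else 0) - Y.card / q ^ 2) u)
  have hin : ∑ u, ((if u ∈ X then (1 : ℝ) else 0) - X.card / q ^ 2) *
      aa σ S (fun v => (if v ∈ Y then (1 : ℝ) else 0) - Y.card / q ^ 2) u =
      -(D * (X.card * Y.card / q ^ 2)) := by
    simp only [sub_mul]
    rw [sum_sub_distrib, ← mul_sum, hsum, mul_zero, sub_zero]
    have : ∀ u : F × F, (if u ∈ X then (1 : ℝ) else 0) *
        aa σ S (fun v => (if v ∈ Y then (1 : ℝ) else 0) - Y.card / q ^ 2) u =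
        if u ∈ X then -(D * (Y.card / q ^ 2)) else 0 := by
      intro u
      split_ifs with h
      · rw [one_mul, hu u h]
      · rw [zero_mul]
    rw [sum_congr rfl fun u _ => this u, sum_ite_mem, univ_inter, sum_const, nsmul_eq_mul]
    ring
  rw [hin, hX2] at hcs
  obtain ⟨x, hx⟩ : ∃ x : ℝ, (X.card : ℝ) = x := ⟨_, rfl⟩
  obtain ⟨y, hy⟩ : ∃ y : ℝ, (Y.card : ℝ) = y := ⟨_, rfl⟩
  have hxN : x ≤ q ^ 2 := by rw [← hx, ← hq]; exact_mod_cast hXN
  have hyN : y ≤ q ^ 2 := by rw [← hy, ← hq]; exact_mod_cast hYN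
  have hx0 : 0 ≤ x := by rw [← hx]; positivity
  have hy0 : 0 ≤ y := by rw [← hy]; positivity
  have goal : 4 * x * y ≤ (q ^ 2 - x) * (q ^ 2 - y) := by
    rcases hx0.eq_or_lt with h | hxp
    · rw [← h]
      have : 0 ≤ (q ^ 2 - 0) * (q ^ 2 - y) := mul_nonneg (by positivity) (by linarith)
      linarith
    rcases hy0.eq_or_lt with h | hyp
    · rw [← h]
      have : 0 ≤ (q ^ 2 - x) * (q ^ 2 - 0) := mul_nonneg (by linarith) (by positivity)
      linarith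
    rw [hx, hy] at hcs
    rw [hy] at hnorm
    obtain ⟨A, hA⟩ : ∃ A : ℝ, ∑ u, (aa σ S (fun v => (if v ∈ Y then (1 : ℝ) else 0) -
      y / q ^ 2) u) ^ 2 = A := ⟨_, rfl⟩
    rw [hA] at hcs hnorm
    have hxx : 0 ≤ x - x ^ 2 / q ^ 2 := by
      rw [sub_nonneg, div_le_iff₀ hN]
      nlinarith
    have h1 : 4 * (-(D * (x * y / q ^ 2))) ^ 2 ≤
        (x - x ^ 2 / q ^ 2) * (D ^ 2 * (y - y ^ 2 / q ^ 2)) := by
      calc 4 * (-(D * (x * y / q ^ 2))) ^ 2 ≤ 4 * ((x - x ^ 2 / q ^ 2) * A) := by linarith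
        _ = (x - x ^ 2 / q ^ 2) * (4 * A) := by ring
        _ ≤ _ := mul_le_mul_of_nonneg_left hnorm hxx
    have e1 : 4 * (-(D * (x * y / q ^ 2))) ^ 2 = (D ^ 2 * (x * y) / (q ^ 2) ^ 2) * (4 * x * y) := by
      field_simp
    have e2 : (x - x ^ 2 / q ^ 2) * (D ^ 2 * (y - y ^ 2 / q ^ 2)) =
        (D ^ 2 * (x * y) / (q ^ 2) ^ 2) * ((q ^ 2 - x) * (q ^ 2 - y)) := by
      field_simp
    rw [e1, e2] at h1
    exact le_of_mul_le_mul_left h1 (by positivity)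
  have e : ((4 * X.card * Y.card : ℕ) : ℝ) ≤
      (((Fintype.card F ^ 2 - X.card) * (Fintype.card F ^ 2 - Y.card) : ℕ) : ℝ) := by
    push_cast [Nat.cast_sub hXN, Nat.cast_sub hYN]
    rw [hq, hx, hy]
    exact goal
  exact_mod_cast e

end Pool.Agent.Q42.SZ
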