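import Pool.Agent.Q42.SZ.Stmts

/-! Blueprint of helper42 for MP_c2cbdb_al: TNon. -/

namespace Pool.Agent.Q42.SZ

open Finset

/-- the operator `g ↦ ψ(t σ(a) x) g(x + a)` -/
def ddOp {F : Type} [Field F] (σ : F →+* F) (ψ : F → ℝ) (t a : F) : (F → ℝ) →ₗ[ℝ] (F → ℝ) where
  toFun g x := ψ (t * (σ a * x)) * g (x + a)
  map_add' g h := by funext x; simp only [Pi.add_apply]; ring
  map_smul' r g := by
    funext x; simp only [Pi.smul_apply, smul_eq_mul, RingHom.id_apply]; ring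

theorem ddOp_apply {F : Type} [Field F] (σ : F →+* F) (ψ : F → ℝ) (t a : F) (g : F → ℝ) (x : F) :
    ddOp σ ψ t a g x = ψ (t * (σ a * x)) * g (x + a) := rfl

theorem ddOp_inj {F : Type} [Field F] [Fintype F] [DecidableEq F] (σ : F →+* F) (ψ : F → ℝ)
    (hψ : Chr F ψ) (t a : F) : Function.Injective (ddOp σ ψ t a) := by
  intro g h hgh
  funext y
  have h1 := congrFun hgh (y - a)
  rw [ddOp_apply, ddOp_apply, sub_add_cancel] at h1
  have h2 : ψ (t * (σ a * (y - a))) ≠ 0 := by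
    intro h0
    have := hψ.sq (t * (σ a * (y - a)))
    rw [h0] at this
    norm_num at this
  exact mul_left_cancel₀ h2 h1

theorem tNon (hSym : TSym) (hCom : TCom) (hOmg : TOmg) (hHS : THS2) (hSpec : TSpec)
    (hAr : TArith) (hTh : TThree) : TNon := by
  intro F _ _ _ σ hσ ψ hψ S hS t ht g
  obtain ⟨a, c, hac⟩ := hOmg F σ hσ ψ hψ t ht
  have key : ψ (t * (σ c * a)) = - ψ (t * (σ a * c)) := by
    have h1 := hψ.sq (t * (σ a * c))
    have h2 : ψ (t * (σ c * a)) * ψ (t * (σ a * c)) = -1 := by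
      rw [← hψ.add, ← hac]
      congr 1
      ring
    calc ψ (t * (σ c * a)) = ψ (t * (σ c * a)) * (ψ (t * (σ a * c)) * ψ (t * (σ a * c))) := by
          rw [h1, mul_one]
      _ = (ψ (t * (σ c * a)) * ψ (t * (σ a * c))) * ψ (t * (σ a * c)) := by ring
      _ = - ψ (t * (σ a * c)) := by rw [h2]; ring
  have hmain := hSpec F (kk σ ψ S t) (ddOp σ ψ t a) (ddOp σ ψ t c)
    (fun x y => hSym F σ hσ ψ hψ S hS t x y)
    (fun g x => hCom F σ hσ ψ hψ S t a x g)
    (fun g x => hCom F σ hσ ψ hψ S t c x g)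
    (ddOp_inj σ ψ hψ t a) (ddOp_inj σ ψ hψ t c)
    (by
      intro g
      funext x
      rw [Pi.neg_apply, ddOp_apply, ddOp_apply, ddOp_apply, ddOp_apply]
      have e1 : ψ (t * (σ c * (x + a))) = ψ (t * (σ c * x)) * ψ (t * (σ c * a)) := by
        rw [← hψ.add]; congr 1; ring
      have e2 : ψ (t * (σ a * (x + c))) = ψ (t * (σ a * x)) * ψ (t * (σ a * c)) := by
        rw [← hψ.add]; congr 1; ring
      have e3 : x + a + c = x + c + a := by ring
      rw [e1, e2, key, e3]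
      ring) g
  rw [hHS F σ hσ ψ hψ S hS t ht] at hmain
  have hk : (cls S).card ≤ Fintype.card F := Finset.card_le_univ _
  have he : eps S ≤ 1 := by unfold eps; split_ifs <;> simp
  have h1 := (hAr (Fintype.card F) (cls S).card (eps S) hσ.big hk he (hTh F σ hσ S hS)).1
  have hg : 0 ≤ ∑ x, g x ^ 2 := Finset.sum_nonneg fun x _ => sq_nonneg _
  have h2 := mul_le_mul_of_nonneg_right h1 hg
  nlinarith [hmain, h2]

end Pool.Agent.Q42.SZ
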