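import Pool.Agent.Q42.SZ.Stmts

/-!
MP_c2cbdb_al: task `TNorm` of the blueprint in `Pool/Agent/Q42/SZ/Stmts.lean`.
-/

set_option autoImplicit false

namespace Pool.Agent.Q42.SZ

open Finset

theorem tNorm (hNon : TNon) (hTriv : TTriv) (hConv : TConv) (hPars2 : TPars2) (hChr : TChr) :
    TNorm := by
  intro F _ _ _ σ h S hS f hf
  obtain ⟨ψ, hψ⟩ := hChr F h.two
  have hψ0 : ψ 0 = 1 := by
    have h1 := hψ.add 0 0
    rw [add_zero, hψ.sq] at h1
    exact h1
  have hq : (0 : ℝ) < Fintype.card F := by exact_mod_cast Fintype.card_pos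
  have hstep : ∀ t : F, 4 * ∑ x, (ft ψ (aa σ S f) t x) ^ 2 ≤
      ((((cls S).card + eps S : ℕ) : ℝ) * ((Fintype.card F : ℝ) - 1)) ^ 2 *
        ∑ x, (ft ψ f t x) ^ 2 := by
    intro t
    have e : ∀ x, ft ψ (aa σ S f) t x = ∑ x', kk σ ψ S t x x' * ft ψ f t x' :=
      fun x => hConv F σ h ψ hψ S f t x
    simp only [e]
    by_cases ht : t = 0
    · subst ht
      refine hTriv F σ h ψ hψ S hS (ft ψ f 0) ?_
      unfold ft
      simp only [zero_mul, hψ0, mul_one]
      rw [← hf, Fintype.sum_prod_type]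
    · exact hNon F σ h ψ hψ S hS t ht (ft ψ f t)
  have h1 := hPars2 F ψ hψ h.two (aa σ S f)
  have h2 := hPars2 F ψ hψ h.two f
  have h3 := Finset.sum_le_sum (fun (t : F) (_ : t ∈ (univ : Finset F)) => hstep t)
  rw [← Finset.mul_sum, ← Finset.mul_sum, h1, h2] at h3
  refine le_of_mul_le_mul_left ?_ hq
  linarith

end Pool.Agent.Q42.SZ
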