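import Pool.Agent.Q42.SZ.Stmts

set_option autoImplicit false
set_option linter.all false

namespace Pool.Agent.Q42.SZ

theorem tNw : TNw := by
  intro F _ _ σ h p hN
  obtain ⟨x, y⟩ := p
  have e : nn σ (x, y) = x * y + σ x * x ^ 2 + σ y := rfl
  have hσN : σ (nn σ (x, y)) = σ x * σ y + x ^ 2 * σ x ^ 2 + y ^ 2 := by
    rw [e]
    simp only [map_add, map_mul, map_pow, h.sq]
  have key : x * y * σ (nn σ (x, y)) + σ y * y ^ 2 + σ x * (nn σ (x, y)) ^ 2 =
      nn σ (x, y) * σ (nn σ (x, y)) := by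
    rw [hσN, e]
    linear_combination (σ x ^ 2 * x ^ 3 * y + σ x * x * y * σ y) * h.two
  generalize nn σ (x, y) = N at *
  have hσ0 : σ N ≠ 0 := (map_ne_zero σ).2 hN
  show y / N * (x / N) + σ (y / N) * (y / N) ^ 2 + σ (x / N) = N⁻¹
  rw [map_div₀, map_div₀]
  generalize σ N = M at *
  field_simp
  linear_combination key

end Pool.Agent.Q42.SZ
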