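import Pool.Agent.Q42.SZ.Stmts

set_option autoImplicit false

namespace Pool.Agent.Q42.SZ

theorem tNz : TNz := by
  intro F _ _ σ h p hp hN
  obtain ⟨x, y⟩ := p
  have h2 := h.two
  simp only [nn] at hN
  by_cases hx : x = 0
  · subst hx
    simp only [map_zero, zero_mul, zero_add, ne_eq, OfNat.ofNat_ne_zero, not_false_eq_true,
      zero_pow, mul_zero] at hN
    have hy : y = 0 := (map_eq_zero σ).1 hN
    exact hp (by rw [hy])
  · have hsx : σ x ≠ 0 := fun h0 => hx ((map_eq_zero σ).1 h0)
    set c := y / (σ x * x) with hc
    have hy : y = c * (σ x * x) := by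
      rw [hc]
      field_simp
    have hsy : σ y = σ c * (x ^ 2 * σ x) := by
      rw [hy, map_mul, map_mul, h.sq x]
    have h1 : σ x * x ^ 2 * (c + 1 + σ c) = 0 := by
      rw [hsy] at hN
      rw [hy] at hN
      linear_combination hN
    have h3 : c + 1 + σ c = 0 := by
      rcases mul_eq_zero.1 h1 with h4 | h4
      · exact absurd h4 (mul_ne_zero hsx (pow_ne_zero 2 hx))
      · exact h4
    have h4 : σ c = c + 1 := by linear_combination h3 - (c + 1) * h2
    have h5 : c ^ 2 = c := by
      rw [← h.sq c, h4, map_add, map_one, h4]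
      linear_combination h2
    have h6 : c * (c - 1) = 0 := by linear_combination h5
    rcases mul_eq_zero.1 h6 with h7 | h7
    · rw [h7, map_zero, zero_add] at h4
      exact zero_ne_one h4
    · have h8 : c = 1 := by linear_combination h7
      rw [h8, map_one] at h4
      have : (1 : F) = 0 := by linear_combination h4 + h2
      exact one_ne_zero this

end Pool.Agent.Q42.SZ
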