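import Pool.Agent.Q42.SZ.Stmts

set_option autoImplicit false

namespace Pool.Agent.Q42.SZ

open Finset

theorem tOmg (hB : TBij) : TOmg := by
  intro F _ _ _ σ hT ψ hψ t ht
  -- a point with `ψ z = -1`
  have hz : ∃ z, ψ z = -1 := by
    by_contra hcon
    have h1 : ∀ y, ψ y = 1 := by
      intro y
      rcases mul_self_eq_one_iff.1 (hψ.sq y) with h | h
      · exact h
      · exact absurd ⟨y, h⟩ hcon
    have h2 := hψ.orth 1
    simp only [h1, one_ne_zero, if_false] at h2
    rw [Finset.sum_const, Finset.card_univ, nsmul_eq_mul, mul_one] at h2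
    have h3 : (0 : ℝ) < (Fintype.card F : ℝ) := by exact_mod_cast Fintype.card_pos
    linarith
  obtain ⟨z, hz⟩ := hz
  -- a point outside `{0, 1}`
  have hc : ∃ c : F, c ∉ ({0, 1} : Finset F) := by
    by_contra hcon
    push Not at hcon
    have h1 : (Finset.univ : Finset F) ⊆ {0, 1} := fun c _ => hcon c
    have h2 := Finset.card_le_card h1
    have h3 : ({0, 1} : Finset F).card ≤ 2 := Finset.card_le_two
    rw [Finset.card_univ] at h2
    have := hT.big
    omega
  obtain ⟨c0, hc0⟩ := hc
  rw [Finset.mem_insert, Finset.mem_singleton, not_or] at hc0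
  have hne : σ c0 + c0 ≠ 0 := by
    intro h
    have h1 : σ c0 = c0 := by linear_combination h - c0 * hT.two
    have h2 := hT.sq c0
    rw [h1, h1] at h2
    have h3 : c0 * (c0 - 1) = 0 := by linear_combination -h2
    rcases mul_eq_zero.1 h3 with h | h
    · exact hc0.1 h
    · exact hc0.2 (sub_eq_zero.1 h)
  obtain ⟨a, ha⟩ := (hB F σ hT).2 (z / (t * (σ c0 + c0)))
  refine ⟨a, a * c0, ?_⟩
  have e : t * (σ (a * c0) * a + σ a * (a * c0)) = z := by
    have ha' : σ a * a = z / (t * (σ c0 + c0)) := ha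
    rw [map_mul]
    have : t * (σ a * σ c0 * a + σ a * (a * c0)) = (σ a * a) * (t * (σ c0 + c0)) := by ring
    rw [this, ha', div_mul_cancel₀ _ (mul_ne_zero ht hne)]
  rw [e, hz]

end Pool.Agent.Q42.SZ
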