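import Pool.Agent.Q42.SZ.Stmts

/-! Parseval (helper331) -/

namespace Pool.Agent.Q42.SZ

open Finset

theorem tPars : TPars := by
  intro F _ _ _ ψ hψ h2 f
  have hz : ∀ y z : F, y + z = 0 ↔ z = y := by
    intro y z
    have hy : y + y = 0 := by linear_combination y * h2
    constructor
    · intro h
      linear_combination h - hy
    · rintro rfl
      exact hy
  have h1 : ∀ t : F, (∑ y, f y * ψ (t * y)) ^ 2 =
      ∑ y, ∑ z, f y * f z * ψ (t * (y + z)) := by
    intro t
    rw [sq, Finset.sum_mul_sum]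
    refine Finset.sum_congr rfl fun y _ => Finset.sum_congr rfl fun z _ => ?_
    rw [mul_add, hψ.add]
    ring
  rw [Finset.sum_congr rfl fun t _ => h1 t, Finset.sum_comm, Finset.mul_sum]
  refine Finset.sum_congr rfl fun y _ => ?_
  rw [Finset.sum_comm]
  have h3 : ∀ z, ∑ t, f y * f z * ψ (t * (y + z)) =
      if z = y then f y * f z * (Fintype.card F : ℝ) else 0 := by
    intro z
    rw [← Finset.mul_sum, hψ.orth]
    simp only [hz]
    split_ifs <;> simp
  rw [Finset.sum_congr rfl fun z _ => h3 z, Finset.sum_ite_eq' _ y, if_pos (Finset.mem_univ y)]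
  ring

end Pool.Agent.Q42.SZ
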