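import Pool.Agent.Q42.SZ.Stmts

namespace Pool.Agent.Q42.SZ

open Finset

theorem tPars2 (hP : TPars) : TPars2 := by
  intro F _ _ _ ψ hψ h2 f
  rw [Finset.sum_comm]
  unfold ft
  have h : ∀ x : F, ∑ t, (∑ y, f (x, y) * ψ (t * y)) ^ 2 =
      (Fintype.card F : ℝ) * ∑ y, f (x, y) ^ 2 := fun x => hP F ψ hψ h2 (fun y => f (x, y))
  rw [Finset.sum_congr rfl (fun x _ => h x), ← Finset.mul_sum, Fintype.sum_prod_type]

end Pool.Agent.Q42.SZ
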