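import Pool.Agent.Q42.SZ.Stmts

/-! # A symmetric invariant relation hits every 3-partition -/

namespace Pool.Agent.Q42.SZ

open Finset

theorem tPart (hMix : TMix) (hLink : TLink) (hTwo : TTwo) : TPart := by
  intro F _ _ _ σ hT R hR c hc
  classical
  by_contra hcon
  push Not at hcon
  obtain ⟨i0, -, hi0⟩ := Finset.exists_min_image (univ : Finset (Fin 3))
    (fun i => (univ.filter (fun w : Om F => c w = i)).card) ⟨0, mem_univ _⟩
  obtain ⟨i1, i2, h01, h02, h12, hall⟩ : ∃ i1 i2 : Fin 3, i0 ≠ i1 ∧ i0 ≠ i2 ∧ i1 ≠ i2 ∧
      ∀ i, i = i0 ∨ i = i1 ∨ i = i2 := by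
    clear hi0
    revert i0
    decide
  obtain ⟨p, hp⟩ := hc i0
  obtain ⟨p', hp'⟩ := hc i1
  have hpp : p ≠ p' := by
    rintro rfl
    exact h01 (hp.symm.trans hp')
  obtain ⟨g, hg, hgp, -⟩ := hTwo F σ hT p p' hpp
  obtain ⟨S, hS, hSR⟩ := hLink F σ hT R hR
  have hgn : g.symm none = p := by
    rw [← hgp]
    simp
  set X : Finset (F × F) := univ.filter (fun u => c (g.symm (some u)) = i1) with hX
  set Y : Finset (F × F) := univ.filter (fun u => c (g.symm (some u)) = i2) with hY
  have hcard : ∀ i : Fin 3, i0 ≠ i →
      (univ.filter (fun u : F × F => c (g.symm (some u)) = i)).card =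
        (univ.filter (fun w : Om F => c w = i)).card := by
    intro i hi
    refine Finset.card_bij (fun u _ => g.symm (some u)) ?_ ?_ ?_
    · intro u hu
      simpa using hu
    · intro u _ v _ huv
      exact Option.some_injective _ (g.symm.injective huv)
    · intro w hw
      have hw' : c w = i := by simpa using hw
      cases hgw : g w with
      | none =>
        exfalso
        have : w = p := by
          rw [← hgn, ← hgw]
          simp
        rw [this, hp] at hw'
        exact hi hw'
      | some u =>
        refine ⟨u, ?_, ?_⟩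
        · simp only [mem_filter, mem_univ, true_and]
          rw [← hgw]
          simpa using hw'
        · rw [← hgw]
          simp
  have hmix := hMix F σ hT S hS X Y (by
    intro u hu v hv hmem
    have h1 : R none (some u) (some v) := (hSR u v).2 hmem
    have h2 := hR.inv g⁻¹ (inv_mem hg) _ _ _ h1
    have hu' : c (g.symm (some u)) = i1 := by simpa [hX] using hu
    have hv' : c (g.symm (some v)) = i2 := by simpa [hY] using hv
    have e0 : c (g⁻¹ none) = i0 := by
      have : g⁻¹ none = p := hgn
      rw [this, hp]
    have e1 : c (g⁻¹ (some u)) = i1 := hu'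
    have e2 : c (g⁻¹ (some v)) = i2 := hv'
    have h3 := hcon _ _ _ h2
    rw [e0, e1, e2] at h3
    exact h12 (h3 h01 h02))
  have hx : X.card = (univ.filter (fun w : Om F => c w = i1)).card := hcard i1 h01
  have hy : Y.card = (univ.filter (fun w : Om F => c w = i2)).card := hcard i2 h02
  have hsum : (univ.filter (fun w : Om F => c w = i0)).card +
      ((univ.filter (fun w : Om F => c w = i1)).card +
        (univ.filter (fun w : Om F => c w = i2)).card) = Fintype.card F ^ 2 + 1 := by
    have h1 : Fintype.card (Om F) = ∑ i : Fin 3, (univ.filter (fun w : Om F => c w = i)).card := by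
      rw [← Finset.card_univ]
      exact Finset.card_eq_sum_card_fiberwise (fun _ _ => by simp)
    have h2 : (univ : Finset (Fin 3)) = {i0, i1, i2} := by
      ext i
      simpa using hall i
    rw [h2, Finset.sum_insert (by simp [h01, h02]), Finset.sum_insert (by simp [h12]),
      Finset.sum_singleton] at h1
    have h3 : Fintype.card (Om F) = Fintype.card F ^ 2 + 1 := by
      rw [Fintype.card_option, Fintype.card_prod, sq]
    rw [← h1, h3]
  have hpos : 0 < (univ.filter (fun w : Om F => c w = i0)).card :=
    Finset.card_pos.2 ⟨p, by simp [hp]⟩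
  have hle1 : (univ.filter (fun w : Om F => c w = i0)).card ≤
      (univ.filter (fun w : Om F => c w = i1)).card := hi0 i1 (mem_univ _)
  have hle2 : (univ.filter (fun w : Om F => c w = i0)).card ≤
      (univ.filter (fun w : Om F => c w = i2)).card := hi0 i2 (mem_univ _)
  rw [← hx] at hle1 hsum
  rw [← hy] at hle2 hsum
  generalize (univ.filter (fun w : Om F => c w = i0)).card = n0 at hle1 hle2 hsum hpos
  generalize X.card = x at *
  generalize Y.card = y at *
  generalize Fintype.card F ^ 2 = Q at *
  have ha : Q - x < 2 * y := by omega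
  have hb : Q - y < 2 * x := by omega
  have hlt := Nat.mul_lt_mul'' ha hb
  have h4 : 2 * y * (2 * x) = 4 * x * y := by ring
  omega

end Pool.Agent.Q42.SZ
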