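import Pool.Agent.Q42.SZ.Stmts

set_option autoImplicit false

namespace Pool.Agent.Q42.SZ

open Finset

private def e1 {F : Type} [Field F] (σ : F →+* F) (u : F × F) : F × F ≃ F × F where
  toFun v := (v.1 + u.1, v.2 + u.2 + σ u.1 * (v.1 + u.1))
  invFun w := (w.1 - u.1, w.2 - u.2 - σ u.1 * w.1)
  left_inv v := by
    ext
    · simp
    · simp only [add_sub_cancel_right]
      ring
  right_inv w := by
    ext
    · simp
    · simp only [sub_add_cancel]
      ring

private def e2 {F : Type} [Field F] (σ : F →+* F) (v : F × F) : F × F ≃ F × F where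
  toFun u := (v.1 + u.1, v.2 + u.2 + σ u.1 * (v.1 + u.1))
  invFun w := (w.1 - v.1, w.2 - v.2 - σ (w.1 - v.1) * w.1)
  left_inv u := by
    ext
    · simp
    · simp only [add_sub_cancel_left]
      ring
  right_inv w := by
    ext
    · simp
    · simp only [add_sub_cancel]
      ring

theorem tReg : TReg := by
  intro F _ _ _ σ _ S
  have key : ∀ r : ℝ, ∑ w : F × F, (if w ∈ S then r else 0) = S.card * r := by
    intro r
    rw [← Finset.sum_filter, Finset.filter_mem_eq_inter, Finset.univ_inter, Finset.sum_const,
      nsmul_eq_mul]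
  constructor
  · intro r u
    unfold aa
    rw [← key r]
    exact Equiv.sum_comp (e1 σ u) (fun w => if w ∈ S then r else 0)
  · intro f
    unfold aa
    rw [Finset.sum_comm, Finset.mul_sum]
    refine Finset.sum_congr rfl fun v _ => ?_
    rw [← key (f v)]
    exact Equiv.sum_comp (e2 σ v) (fun w => if w ∈ S then f v else 0)

end Pool.Agent.Q42.SZ
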