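import Pool.Agent.Q42.SZ.Stmts

set_option autoImplicit false

namespace Pool.Agent.Q42.SZ

open Finset

theorem tSet : TSet := by
  intro F _ _ _ ψ h h2 C
  have hc : ∀ c c' : F, c + c' = 0 ↔ c = c' := by
    intro c c'
    constructor
    · intro h
      linear_combination h - c' * h2
    · intro h
      rw [h]
      linear_combination c' * h2
  have h1 : ∀ t : F, (∑ c ∈ C, ψ (t * c)) ^ 2 = ∑ c ∈ C, ∑ c' ∈ C, ψ (t * (c + c')) := by
    intro t
    rw [sq, Finset.sum_mul_sum]
    refine Finset.sum_congr rfl fun c _ => Finset.sum_congr rfl fun c' _ => ?_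
    rw [mul_add, h.add]
  rw [Finset.sum_congr rfl fun t _ => h1 t, Finset.sum_comm]
  have h3 : ∀ c ∈ C, ∑ t : F, ∑ c' ∈ C, ψ (t * (c + c')) = (Fintype.card F : ℝ) := by
    intro c hcC
    rw [Finset.sum_comm]
    simp only [h.orth, hc]
    rw [Finset.sum_ite_eq]
    simp [hcC]
  rw [Finset.sum_congr rfl h3, Finset.sum_const, nsmul_eq_mul, mul_comm]

end Pool.Agent.Q42.SZ
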