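import Pool.Agent.Q42.SZ.Stmts

set_option autoImplicit false

/-! Bessel's inequality for two orthonormal vectors, summed over the rows. -/

namespace Pool.Agent.Q42.SZ

theorem tSpA : TSpA := by
  intro ι _ K u v hu hv huv
  rw [← Finset.sum_add_distrib]
  apply Finset.sum_le_sum
  intro x _
  obtain ⟨α, hα⟩ : ∃ α : ℝ, α = ∑ y, K x y * u y := ⟨_, rfl⟩
  obtain ⟨β, hβ⟩ : ∃ β : ℝ, β = ∑ y, K x y * v y := ⟨_, rfl⟩
  have h : 0 ≤ ∑ y, (K x y - α * u y - β * v y) ^ 2 := Finset.sum_nonneg fun y _ => sq_nonneg _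
  have e : ∑ y, (K x y - α * u y - β * v y) ^ 2 =
      ∑ y, K x y ^ 2 - 2 * α * ∑ y, K x y * u y - 2 * β * ∑ y, K x y * v y +
        α ^ 2 * ∑ y, u y ^ 2 + β ^ 2 * ∑ y, v y ^ 2 + 2 * α * β * ∑ y, u y * v y := by
    simp only [Finset.mul_sum, ← Finset.sum_add_distrib, ← Finset.sum_sub_distrib]
    apply Finset.sum_congr rfl
    intro y _
    ring
  rw [e, hu, hv, huv, ← hα, ← hβ] at h
  rw [← hα, ← hβ]
  nlinarith

end Pool.Agent.Q42.SZ
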