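import Pool.Agent.Q42.SZ.Stmts

/-! SZ.SpB (author: helper119). -/

namespace Pool.Agent.Q42.SZ

theorem spB_norm {ι : Type} [Fintype ι] (w : ι → ℝ) (hw : w ≠ 0) :
    ∃ c : ℝ, ∑ x, (c * w x) ^ 2 = 1 := by
  have hpos : 0 < ∑ x, w x ^ 2 := by
    obtain ⟨i, hi⟩ := Function.ne_iff.1 hw
    refine Finset.sum_pos' (fun x _ => sq_nonneg _) ⟨i, Finset.mem_univ i, ?_⟩
    have : w i ≠ 0 := hi
    positivity
  refine ⟨(Real.sqrt (∑ x, w x ^ 2))⁻¹, ?_⟩
  simp_rw [mul_pow]
  rw [← Finset.mul_sum, inv_pow, Real.sq_sqrt hpos.le]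
  exact inv_mul_cancel₀ hpos.ne'

theorem spB_eig {ι : Type} [Fintype ι] (K : ι → ι → ℝ) (u v : ι → ℝ) (l a b : ℝ)
    (hu : ∀ x, ∑ y, K x y * u y = l * u x) (hv : ∀ x, ∑ y, K x y * v y = l * v x) (x : ι) :
    ∑ y, K x y * (a * u y + b * v y) = l * (a * u x + b * v x) := by
  have : ∀ y, K x y * (a * u y + b * v y) = a * (K x y * u y) + b * (K x y * v y) := by
    intro y; ring
  simp_rw [this]
  rw [Finset.sum_add_distrib, ← Finset.mul_sum, ← Finset.mul_sum, hu, hv]
  ring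

theorem tSpB : TSpB := by
  intro ι _ K u v l hu hv hu0 hv0
  obtain ⟨c, hc⟩ := spB_norm u hu0
  set s : ℝ := ∑ x, (c * u x) * v x with hs
  -- `w = v - s c u`
  have hw : (fun x => v x - s * (c * u x)) ≠ 0 := by
    intro h
    refine hv0 (s * c) ?_
    funext x
    have := congrFun h x
    simp only [Pi.zero_apply] at this
    simp only [Pi.smul_apply, smul_eq_mul]
    linarith
  obtain ⟨d, hd⟩ := spB_norm _ hw
  refine ⟨fun x => c * u x, fun x => d * (v x - s * (c * u x)), hc, hd, ?_, ?_, ?_⟩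
  · have e : ∀ x, c * u x * (d * (v x - s * (c * u x))) =
        d * ((c * u x) * v x) - d * s * (c * u x) ^ 2 := by
      intro x; ring
    simp_rw [e]
    rw [Finset.sum_sub_distrib, ← Finset.mul_sum, ← Finset.mul_sum, hc, ← hs]
    ring
  · intro x
    have h := spB_eig K u v l c 0 hu hv x
    simpa using h
  · intro x
    have h := spB_eig K u v l (-(d * s * c)) d hu hv x
    have e : ∀ y, d * (v y - s * (c * u y)) = -(d * s * c) * u y + d * v y := by
      intro y; ring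
    simp_rw [e]
    exact h

end Pool.Agent.Q42.SZ
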