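import Pool.Agent.Q42.SZ.Stmts

namespace Pool.Agent.Q42.SZ

open Finset

theorem tSpC : TSpC := by
  intro ι _ _ K M hsym hev g
  classical
  let A : Matrix ι ι ℝ := Matrix.of K
  have hA : A.IsHermitian := by
    ext x y
    simp [A, Matrix.conjTranspose_apply, hsym y x]
  let b := hA.eigenvectorBasis
  let l := hA.eigenvalues
  -- the eigenvectors as functions
  let w : ι → ι → ℝ := fun i x => (b i) x
  have hw : ∀ i x, ∑ y, K x y * w i y = l i * w i x := by
    intro i x
    have h1 := congrFun (hA.mulVec_eigenvectorBasis i) x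
    simp only [Matrix.mulVec, dotProduct, Pi.smul_apply, smul_eq_mul] at h1
    exact h1
  have hne : ∀ i, w i ≠ 0 := by
    intro i h0
    have h1 : b i ≠ 0 := b.orthonormal.ne_zero i
    apply h1
    ext x
    exact congrFun h0 x
  have hl : ∀ i, 2 * l i ^ 2 ≤ M := fun i => hev (l i) (w i) (hne i) (hw i)
  -- Parseval
  have hpars : ∀ f : ι → ℝ, ∑ i, (∑ x, w i x * f x) ^ 2 = ∑ x, f x ^ 2 := by
    intro f
    have h1 := b.sum_sq_norm_inner_right (WithLp.toLp 2 f)
    have h2 : ∀ i, ‖inner ℝ (b i) (WithLp.toLp 2 f)‖ ^ 2 = (∑ x, w i x * f x) ^ 2 := by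
      intro i
      rw [Real.norm_eq_abs, sq_abs, PiLp.inner_apply]
      congr 1
      apply Finset.sum_congr rfl
      intro x _
      simp [w, mul_comm]
    rw [Finset.sum_congr rfl (fun i _ => h2 i)] at h1
    rw [h1, EuclideanSpace.norm_sq_eq]
    simp
  rw [← hpars g, ← hpars (fun x => ∑ y, K x y * g y), Finset.mul_sum, Finset.mul_sum]
  apply Finset.sum_le_sum
  intro i _
  have h3 : ∑ x, w i x * (∑ y, K x y * g y) = l i * ∑ y, w i y * g y := by
    calc ∑ x, w i x * (∑ y, K x y * g y) = ∑ x, ∑ y, w i x * (K x y * g y) := by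
          simp only [Finset.mul_sum]
      _ = ∑ y, ∑ x, w i x * (K x y * g y) := Finset.sum_comm
      _ = ∑ y, (∑ x, K y x * w i x) * g y := by
          apply Finset.sum_congr rfl
          intro y _
          rw [Finset.sum_mul]
          apply Finset.sum_congr rfl
          intro x _
          rw [hsym x y]
          ring
      _ = l i * ∑ y, w i y * g y := by
          rw [Finset.mul_sum]
          apply Finset.sum_congr rfl
          intro y _
          rw [hw i y]
          ring
  rw [h3, mul_pow, ← mul_assoc]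
  exact mul_le_mul_of_nonneg_right (hl i) (sq_nonneg _)

end Pool.Agent.Q42.SZ
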