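import Pool.Agent.Q42.SZ.Stmts

set_option autoImplicit false

namespace Pool.Agent.Q42.SZ

open Finset

theorem tSpec (hA : TSpA) (hB : TSpB) (hC : TSpC) : TSpec := by
  intro ι _ _ K D1 D2 hK h1 h2 i1 i2 hanti g
  refine hC ι K _ hK ?_ g
  intro l v hv hl
  have key : ∀ (D : (ι → ℝ) →ₗ[ℝ] (ι → ℝ)),
      (∀ g x, D (fun x => ∑ y, K x y * g y) x = ∑ y, K x y * D g y) →
      ∀ x, ∑ y, K x y * D v y = l * D v x := by
    intro D hD x
    rw [← hD v x]
    have e : (fun x => ∑ y, K x y * v y) = l • v := by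
      funext x
      rw [hl x]
      rfl
    rw [e, map_smul]
    rfl
  have fin : ∀ w : ι → ℝ, (∀ x, ∑ y, K x y * w y = l * w x) → (∀ r : ℝ, w ≠ r • v) →
      2 * l ^ 2 ≤ ∑ x, ∑ y, K x y ^ 2 := by
    intro w hw hr
    obtain ⟨u', v', a1, a2, a3, a4, a5⟩ := hB ι K v w l hl hw hv hr
    have h3 := hA ι K u' v' a1 a2 a3
    have e1 : ∑ x, (∑ y, K x y * u' y) ^ 2 = l ^ 2 := by
      simp_rw [a4, mul_pow]
      rw [← Finset.mul_sum, a1, mul_one]
    have e2 : ∑ x, (∑ y, K x y * v' y) ^ 2 = l ^ 2 := by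
      simp_rw [a5, mul_pow]
      rw [← Finset.mul_sum, a2, mul_one]
    rw [e1, e2] at h3
    linarith
  by_contra hcon
  have c1 : ∃ r : ℝ, D1 v = r • v := by
    by_contra h
    exact hcon (fin _ (key D1 h1) fun r hr => h ⟨r, hr⟩)
  have c2 : ∃ r : ℝ, D2 v = r • v := by
    by_contra h
    exact hcon (fin _ (key D2 h2) fun r hr => h ⟨r, hr⟩)
  obtain ⟨r, hr⟩ := c1
  obtain ⟨s, hs⟩ := c2
  have e := hanti v
  have e3 : D1 (D2 v) = s • r • v := by rw [hs, map_smul, hr]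
  have e4 : D2 (D1 v) = r • s • v := by rw [hr, map_smul, hs]
  have e2 : D1 (D2 v) = 0 := by
    rw [e3, e4] at e
    rw [e3]
    ext x
    have h5 := congrFun e x
    simp only [Pi.smul_apply, Pi.neg_apply, Pi.zero_apply, smul_eq_mul] at h5 ⊢
    linarith
  have e5 : D2 v = 0 := i1 (by rw [e2, map_zero])
  exact hv (i2 (by rw [e5, map_zero]))

end Pool.Agent.Q42.SZ
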