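import Mathlib
import Pool.Agent.Q42.SZ.Stmts

set_option autoImplicit false

namespace Pool.Agent.Q42.SZ

open Finset

theorem tSym_shift {F : Type} [Field F] [Fintype F] [DecidableEq F] (σ : F →+* F) (hT : Tit F σ)
    (ψ : F → ℝ) (hψ : Chr F ψ) (S : Finset (F × F)) (hS : Lk σ S) (t d : F) :
    hh ψ S t d * ψ (t * (σ d * d)) = hh ψ S t d := by
  unfold hh
  rw [Finset.sum_mul]
  refine Fintype.sum_equiv (Equiv.addRight (σ d * d)) _ _ fun b => ?_
  have hiff : (d, b) ∈ S ↔ (d, b + σ d * d) ∈ S := by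
    constructor
    · intro h
      exact hS.iv _ h
    · intro h
      have h2 := hS.iv _ h
      have h3 : b + σ d * d + σ d * d = b := by linear_combination (σ d * d) * hT.two
      simpa [h3] using h2
  have e : (Equiv.addRight (σ d * d)) b = b + σ d * d := rfl
  rw [e]
  by_cases h : (d, b) ∈ S
  · rw [if_pos h, if_pos (hiff.mp h), mul_add, hψ.add]
  · rw [if_neg h, if_neg (fun h' => h (hiff.mpr h')), zero_mul]

theorem tSym (hKh : TKh) : TSym := by
  intro F _ _ _ σ hT ψ hψ S hS t x x'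
  have hσ : σ x' = σ x + σ (x' + x) := by
    rw [map_add]; linear_combination (-(σ x)) * hT.two
  rw [hKh F σ ψ hψ S t x x', hKh F σ ψ hψ S t x' x, add_comm x x']
  generalize hd : x' + x = d
  rw [hd] at hσ
  have h1 : ψ (t * (σ x' * d)) = ψ (t * (σ x * d)) * ψ (t * (σ d * d)) := by
    rw [← hψ.add, hσ]
    congr 1
    ring
  have h2 := tSym_shift σ hT ψ hψ S hS t d
  rw [h1]
  linear_combination (-(ψ (t * (σ x * d)))) * h2

end Pool.Agent.Q42.SZ
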