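import Pool.Agent.Q42.SZ.Stmts

set_option autoImplicit false

namespace Pool.Agent.Q42.SZ

open Finset

namespace LThree

variable {F : Type} [Field F] [Fintype F] [DecidableEq F] {σ : F →+* F}

theorem mem_cls {S : Finset (F × F)} {c : F} : c ∈ cls S ↔ ((1 : F), c) ∈ S := by
  simp [cls]

omit [Fintype F] in
theorem eps_le (S : Finset (F × F)) : eps S = 0 ∨ eps S = 1 := by
  unfold eps; split_ifs <;> simp

/-- the involution `w` -/
theorem exists_w (h : Tit F σ) (hCls : TCls) (hNz : TNz) {S : Finset (F × F)} (hS : Lk σ S)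
    {c : F} (hc : c ∈ cls S) (hc0 : c ≠ 0) :
    ∃ w ∈ cls S, w * (σ c * c) = 1 + σ c + c ^ 2 := by
  have hN : nn σ ((1 : F), c) ≠ 0 := hNz F σ h (1, c) (by simp)
  have hw := hS.ww _ (mem_cls.1 hc)
  simp only at hw
  have hd : c / nn σ ((1 : F), c) ≠ 0 := div_ne_zero hc0 hN
  have hm := ((hCls F σ h S hS).1 _ (1 / nn σ ((1 : F), c)) hd).1 hw
  refine ⟨_, hm, ?_⟩
  have hsN : σ (nn σ ((1 : F), c)) = 1 + σ c + c ^ 2 := by
    simp only [nn, one_mul, map_one, one_pow, map_add, h.sq]
    ring
  have hsc : σ c ≠ 0 := (map_ne_zero σ).2 hc0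
  have hsN0 : σ (nn σ ((1 : F), c)) ≠ 0 := (map_ne_zero σ).2 hN
  rw [← hsN, map_div₀]
  field_simp

end LThree

open LThree in
theorem tThree (hCls : TCls) (hNz : TNz) : TThree := by
  intro F _ _ _ σ h S hS
  have hiv : ∀ c ∈ cls S, c + 1 ∈ cls S := by
    intro c hc
    have := hS.iv _ (mem_cls.1 hc)
    simp only [map_one, mul_one] at this
    exact mem_cls.2 this
  have h2 := h.two
  by_cases he : eps S = 1
  · -- the infinite class is present
    have h01 : ((0 : F), (1 : F)) ∈ S := ((hCls F σ h S hS).2 1).2 ⟨one_ne_zero, he⟩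
    have h10 := hS.ww _ h01
    have hn : nn σ ((0 : F), (1 : F)) = 1 := by simp [nn]
    rw [hn] at h10
    simp only [div_one] at h10
    have h0 : (0 : F) ∈ cls S := mem_cls.2 h10
    have h1 : (0 : F) + 1 ∈ cls S := hiv 0 h0
    have hsub : ({0, 0 + 1} : Finset F) ⊆ cls S := by
      intro x hx
      simp only [mem_insert, mem_singleton] at hx
      rcases hx with rfl | rfl
      · exact h0
      · exact h1
    have hc := card_le_card hsub
    rw [card_pair (by simp)] at hc
    omega
  · have he0 : eps S = 0 := (eps_le S).resolve_right he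
    have h0 : (0 : F) ∉ cls S := by
      intro h0
      have hw := hS.ww _ (mem_cls.1 h0)
      have hn : nn σ ((1 : F), (0 : F)) = 1 := by simp [nn]
      rw [hn] at hw
      simp only [div_one] at hw
      exact he (((hCls F σ h S hS).2 1).1 hw).2
    obtain ⟨c, hc⟩ : ∃ c, c ∈ cls S := by
      obtain ⟨⟨x, y⟩, hxy⟩ := hS.ne
      by_cases hx : x = 0
      · subst hx
        exact absurd (((hCls F σ h S hS).2 y).1 hxy).2 he
      · exact ⟨_, ((hCls F σ h S hS).1 x y hx).1 hxy⟩
    have hc0 : c ≠ 0 := fun h => h0 (h ▸ hc)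
    have hc1 := hiv c hc
    have hc10 : c + 1 ≠ 0 := fun h => h0 (h ▸ hc1)
    by_contra hlt
    have hne : c ≠ c + 1 := by simp
    have hsub : ({c, c + 1} : Finset F) ⊆ cls S := by
      intro x hx
      simp only [mem_insert, mem_singleton] at hx
      rcases hx with rfl | rfl
      · exact hc
      · exact hc1
    have heq : ({c, c + 1} : Finset F) = cls S :=
      eq_of_subset_of_card_le hsub (by rw [card_pair hne]; omega)
    obtain ⟨w, hw, hwe⟩ := exists_w h hCls hNz hS hc hc0
    obtain ⟨w', hw', hwe'⟩ := exists_w h hCls hNz hS hc1 hc10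
    rw [← heq] at hw hw'
    simp only [mem_insert, mem_singleton] at hw hw'
    rw [map_add, map_one] at hwe'
    have hs0 : σ c ≠ 0 := (map_ne_zero σ).2 hc0
    have hN : nn σ ((1 : F), c) ≠ 0 := hNz F σ h (1, c) (by simp)
    have hs1 : σ c + 1 ≠ 0 := by
      have := (map_ne_zero σ).2 hc10
      rwa [map_add, map_one] at this
    rcases hw' with hw' | hw'
    · rw [hw'] at hwe'
      rcases hw with hw | hw
      · -- w c = c, w (c+1) = c
        rw [hw] at hwe
        have : c * (nn σ ((1 : F), c)) = 0 := by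
          simp only [nn, one_mul, map_one, one_pow]
          linear_combination hwe' - hwe + (1 + c) * h2
        rcases mul_eq_zero.1 this with h | h
        · exact hc0 h
        · exact hN h
      · rw [hw] at hwe
        have : c * (c + 1) = 0 := by
          linear_combination hwe' - hwe + (1 + c) * h2
        rcases mul_eq_zero.1 this with h | h
        · exact hc0 h
        · exact hc10 h
    · rw [hw'] at hwe'
      have : σ c * c ^ 2 = 0 := by
        linear_combination hwe' + (1 - σ c * c) * h2
      rcases mul_eq_zero.1 this with h | h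
      · exact hs0 h
      · exact hc0 (pow_eq_zero_iff two_ne_zero |>.1 h)

end Pool.Agent.Q42.SZ
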