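import Pool.Agent.Q42.SZ.Stmts

namespace Pool.Agent.Q42.SZ

open Finset

private theorem triv_char {F : Type} [Field F] (h2 : (2 : F) = 0) (x y : F) : x + y = 0 ↔ x = y := by
  have hyy : ∀ y : F, y + y = 0 := fun y => by rw [← two_mul, h2, zero_mul]
  constructor
  · intro h
    have h3 : x = x + (y + y) := by rw [hyy, add_zero]
    rw [h3, ← add_assoc, h, zero_add]
  · rintro rfl
    exact hyy x

theorem tTriv (hCls : TCls) (hArith : TArith) (hThree : TThree) : TTriv := by
  intro F _ _ _ σ hT ψ hψ S hS g hg
  obtain ⟨hA, hB⟩ := hCls F σ hT S hS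
  have hψ0 : ψ 0 = 1 := by
    have h1 := hψ.add 0 0
    rw [add_zero, hψ.sq] at h1
    exact h1
  have hk : ∀ x x' : F, kk σ ψ S 0 x x' =
      if x' = x then (eps S : ℝ) * ((Fintype.card F : ℝ) - 1) else ((cls S).card : ℝ) := by
    intro x x'
    unfold kk
    simp only [zero_mul, hψ0]
    rw [Finset.sum_boole]
    split_ifs with h
    · rw [(triv_char hT.two x' x).2 h]
      by_cases he : eps S = 1
      · have hf : (univ.filter fun b : F => ((0 : F), b) ∈ S) = univ.erase 0 := by
          ext b
          simp only [mem_filter, mem_univ, true_and, mem_erase, and_true]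
          rw [hB b]
          exact ⟨fun h => h.1, fun h => ⟨h, he⟩⟩
        rw [hf, card_erase_of_mem (mem_univ _), card_univ, he,
          Nat.cast_sub (Fintype.card_pos (α := F))]
        simp
      · have hf : (univ.filter fun b : F => ((0 : F), b) ∈ S) = ∅ := by
          ext b
          simp only [mem_filter, mem_univ, true_and, notMem_empty, iff_false]
          rw [hB b]
          exact fun h => he h.2
        have he0 : eps S = 0 := by
          unfold eps at he ⊢
          split_ifs at he ⊢ with h
          · exact absurd rfl he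
          · rfl
        rw [hf, he0]
        simp
    · have hd : x' + x ≠ 0 := fun h' => h ((triv_char hT.two x' x).1 h')
      have hσ : σ (x' + x) ≠ 0 := (map_ne_zero σ).2 hd
      have hne : σ (x' + x) * (x' + x) ≠ 0 := mul_ne_zero hσ hd
      have hf : (univ.filter fun b : F => (x' + x, b) ∈ S) =
          (cls S).image (fun c => c * (σ (x' + x) * (x' + x))) := by
        ext b
        simp only [mem_filter, mem_univ, true_and, mem_image]
        rw [hA _ b hd]
        constructor
        · intro hb
          exact ⟨_, hb, div_mul_cancel₀ b hne⟩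
        · rintro ⟨c, hc, rfl⟩
          rwa [mul_div_cancel_right₀ c hne]
      rw [hf, card_image_of_injective _ (mul_left_injective₀ hne)]
  have hsum : ∀ x, ∑ x', kk σ ψ S 0 x x' * g x' =
      ((eps S : ℝ) * ((Fintype.card F : ℝ) - 1) - (cls S).card) * g x := by
    intro x
    have h1 : ∀ x', kk σ ψ S 0 x x' * g x' = ((cls S).card : ℝ) * g x' +
        (if x' = x then ((eps S : ℝ) * ((Fintype.card F : ℝ) - 1) - (cls S).card) * g x' else 0) := by
      intro x'
      rw [hk]
      split_ifs with h
      · ring
      · ring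
    rw [Finset.sum_congr rfl (fun x' _ => h1 x'), Finset.sum_add_distrib, ← Finset.mul_sum, hg,
      mul_zero, zero_add, Finset.sum_ite_eq' univ x]
    simp
  have he1 : eps S ≤ 1 := by
    unfold eps
    split_ifs <;> simp
  have h4 := (hArith (Fintype.card F) (cls S).card (eps S) hT.big (card_le_univ _) he1
    (hThree F σ hT S hS)).2
  have h6 : ∑ x : F, (∑ x' : F, kk σ ψ S 0 x x' * g x') ^ 2 =
      ((eps S : ℝ) * ((Fintype.card F : ℝ) - 1) - (cls S).card) ^ 2 * ∑ x : F, g x ^ 2 := by
    rw [Finset.mul_sum]
    refine Finset.sum_congr rfl (fun x _ => ?_)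
    rw [hsum x, mul_pow]
  rw [h6, ← mul_assoc]
  exact mul_le_mul_of_nonneg_right h4 (Finset.sum_nonneg (fun x _ => sq_nonneg _))

end Pool.Agent.Q42.SZ
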