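import Pool.Agent.Q42.SZ.Stmts

/-! 2-transitivity (blueprint lemma for `MP_c2cbdb_al`). -/

namespace Pool.Agent.Q42.SZ

open Finset

theorem tTwo (hM : TMem) : TTwo := by
  intro F _ _ σ hT u v huv
  obtain ⟨h1, -, w, hw, hw'⟩ := hM F σ hT
  have hmove : ∀ p : F × F, ∃ g ∈ Sz σ, g none = none ∧ g (some p) = some (0, 0) := by
    intro p
    obtain ⟨g, hg, hg'⟩ := h1 (-p.1) (-(p.2 + σ (-p.1) * p.1))
    refine ⟨g, hg, ?_, ?_⟩
    · rw [hg']; rfl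
    · rw [hg']
      show some (p.1 + -p.1, p.2 + -(p.2 + σ (-p.1) * p.1) + σ (-p.1) * p.1) = some (0, 0)
      have e1 : p.1 + -p.1 = 0 := add_neg_cancel _
      have e2 : p.2 + -(p.2 + σ (-p.1) * p.1) + σ (-p.1) * p.1 = 0 := by ring
      rw [e1, e2]
  have hfirst : ∃ g ∈ Sz σ, g u = none := by
    cases u with
    | none => exact ⟨1, Subgroup.one_mem _, rfl⟩
    | some p =>
      obtain ⟨g, hg, -, hg2⟩ := hmove p
      refine ⟨w * g, Subgroup.mul_mem _ hw hg, ?_⟩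
      rw [Equiv.Perm.mul_apply, hg2, hw']
      simp [wwF]
  obtain ⟨g1, hg1, hu⟩ := hfirst
  have hv : g1 v ≠ none := by
    intro h
    exact huv (g1.injective (hu.trans h.symm))
  obtain ⟨p, hp⟩ := Option.ne_none_iff_exists'.mp hv
  obtain ⟨g2, hg2, h2, h3⟩ := hmove p
  refine ⟨g2 * g1, Subgroup.mul_mem _ hg2 hg1, ?_, ?_⟩
  · rw [Equiv.Perm.mul_apply, hu, h2]
  · rw [Equiv.Perm.mul_apply, hp, h3]

end Pool.Agent.Q42.SZ
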