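import Mathlib
import Pool.Agent.Q42.SZ.Stmts

set_option autoImplicit false

namespace Pool.Agent.Q42.SZ

theorem tUt (hP : TPart) : TUt := by
  intro F _ _ _ σ hσ S c hS hc
  obtain ⟨x, y, z, hxy, hxz, hyz, hSe⟩ := Finset.card_eq_three.1 hS
  let R : Om F → Om F → Om F → Prop := fun a b d => a ≠ b ∧ a ≠ d ∧ b ≠ d ∧
    ∃ g ∈ Sz σ, ∀ s, s ∈ S ↔ (g s = a ∨ g s = b ∨ g s = d)
  have hR : Tern σ R := by
    refine ⟨?_, ?_, ?_, ?_, ?_⟩
    · rintro a b d ⟨h1, h2, h3, g, hg, h⟩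
      refine ⟨h1.symm, h3, h2, g, hg, fun s => ?_⟩
      rw [h]
      tauto
    · rintro a b d ⟨h1, h2, h3, g, hg, h⟩
      refine ⟨h2, h1, h3.symm, g, hg, fun s => ?_⟩
      rw [h]
      tauto
    · rintro a b d ⟨h1, -⟩
      exact h1
    · rintro g₀ hg₀ a b d ⟨h1, h2, h3, g, hg, h⟩
      refine ⟨fun e => h1 (g₀.injective e), fun e => h2 (g₀.injective e),
        fun e => h3 (g₀.injective e), g₀ * g, mul_mem hg₀ hg, fun s => ?_⟩
      rw [h]
      simp only [Equiv.Perm.mul_apply, EmbeddingLike.apply_eq_iff_eq]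
    · refine ⟨x, y, z, hxy, hxz, hyz, 1, one_mem _, fun s => ?_⟩
      rw [hSe]
      simp
  obtain ⟨a, b, d, ⟨h1, h2, h3, g, hg, h⟩, hab, had, hbd⟩ := hP F σ hσ R hR c hc
  refine ⟨g, hg, ?_⟩
  have key : ∀ i : Fin 3, i = c a ∨ i = c b ∨ i = c d := by
    intro i
    generalize c a = u at hab had
    generalize c b = v at hab hbd
    generalize c d = w at had hbd
    revert hab had hbd
    revert i u v w
    decide
  intro i
  rcases key i with rfl | rfl | rfl
  · refine ⟨g.symm a, ⟨(h _).2 (Or.inl (by simp)), by simp⟩, ?_⟩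
    rintro s ⟨hs, hcs⟩
    rcases (h s).1 hs with e | e | e
    · rw [← e]; simp
    · rw [e] at hcs; exact absurd hcs.symm hab
    · rw [e] at hcs; exact absurd hcs.symm had
  · refine ⟨g.symm b, ⟨(h _).2 (Or.inr (Or.inl (by simp))), by simp⟩, ?_⟩
    rintro s ⟨hs, hcs⟩
    rcases (h s).1 hs with e | e | e
    · rw [e] at hcs; exact absurd hcs hab
    · rw [← e]; simp
    · rw [e] at hcs; exact absurd hcs.symm hbd
  · refine ⟨g.symm d, ⟨(h _).2 (Or.inr (Or.inr (by simp))), by simp⟩, ?_⟩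
    rintro s ⟨hs, hcs⟩
    rcases (h s).1 hs with e | e | e
    · rw [e] at hcs; exact absurd hcs had
    · rw [e] at hcs; exact absurd hcs hbd
    · rw [← e]; simp

end Pool.Agent.Q42.SZ
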